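import Mathlib

/-!
Finite rank elements of a Hilbert tensor product and rank one greedy steps inside a
two-dimensional block.
-/

open Finset Function

namespace Pool.Agent.Lib.MP_8ec86e_an

/-- Diagonalisation of a real symmetric two by two matrix by a rotation. -/
lemma exists_diag (p w z : ℝ) : ∃ α β l1 l2 : ℝ, α ^ 2 + β ^ 2 = 1 ∧ l2 ≤ l1 ∧
    p = l1 * α ^ 2 + l2 * β ^ 2 ∧ w = (l1 - l2) * (α * β) ∧ z = l1 * β ^ 2 + l2 * α ^ 2 := by
  set ζ : ℂ := ⟨p - z, 2 * w⟩ with hζ
  have h1 := Complex.norm_mul_cos_arg ζ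
  have h2 := Complex.norm_mul_sin_arg ζ
  set D := ‖ζ‖ with hD
  have hD0 : 0 ≤ D := norm_nonneg _
  set θ := ζ.arg / 2 with hθ
  have e : ζ.arg = 2 * θ := by rw [hθ]; ring
  rw [e, Real.cos_two_mul] at h1
  rw [e, Real.sin_two_mul] at h2
  simp only [hζ] at h1 h2
  have h3 := Real.cos_sq_add_sin_sq θ
  have h4 : Real.sin θ ^ 2 = 1 - Real.cos θ ^ 2 := by linarith
  refine ⟨Real.cos θ, Real.sin θ, (p + z + D) / 2, (p + z - D) / 2, h3, by linarith, ?_, ?_, ?_⟩
  · rw [h4]; linear_combination (-1 / 2) * h1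
  · linear_combination (-1 / 2) * h2
  · rw [h4]; linear_combination (1 / 2) * h1

/-- Choice of the angle of a greedy step. -/
lemma exists_angle (σ r c : ℝ) (hr : 0 ≤ r) (hc : 0 ≤ c) (hcσ : c ≤ σ) :
    ∃ C S : ℝ, C ^ 2 + S ^ 2 = 1 ∧ σ * C ^ 2 - r * S ^ 2 = c := by
  rcases eq_or_lt_of_le (show 0 ≤ σ + r by linarith) with h | h
  · refine ⟨1, 0, by norm_num, ?_⟩
    linarith
  · have h1 : 0 ≤ (r + c) / (σ + r) := div_nonneg (by linarith) h.le
    have h2 : 0 ≤ (σ - c) / (σ + r) := div_nonneg (by linarith) h.le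
    refine ⟨Real.sqrt ((r + c) / (σ + r)), Real.sqrt ((σ - c) / (σ + r)), ?_, ?_⟩
    · rw [Real.sq_sqrt h1, Real.sq_sqrt h2]; field_simp; ring
    · rw [Real.sq_sqrt h1, Real.sq_sqrt h2]; field_simp; ring

variable {U H : Type*} [NormedAddCommGroup U] [InnerProductSpace ℝ U]
  [NormedAddCommGroup H] [InnerProductSpace ℝ H]

lemma orthonormal_rotate {u : ℕ → U} (hu : Orthonormal ℝ u) {i j : ℕ} (hij : i ≠ j)
    {α β : ℝ} (h : α ^ 2 + β ^ 2 = 1) :
    Orthonormal ℝ (update (update u i (α • u i + β • u j)) j ((-β) • u i + α • u j)) := by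
  rw [orthonormal_iff_ite] at hu ⊢
  have hji : j ≠ i := hij.symm
  intro k l
  by_cases hkj : k = j
  · by_cases hlj : l = j
    · simp only [hkj, hlj, update_self, inner_add_left, inner_add_right, real_inner_smul_left,
        real_inner_smul_right, hu, hij, hji, if_true, if_false]
      linear_combination h
    · by_cases hli : l = i
      · simp only [hkj, hli, update_self, update_of_ne hij, inner_add_left, inner_add_right,
          real_inner_smul_left, real_inner_smul_right, hu, hij, hji, if_true, if_false]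
        ring
      · simp only [hkj, update_self, update_of_ne hlj, update_of_ne hli, inner_add_left,
          real_inner_smul_left, hu, Ne.symm hlj, Ne.symm hli, if_false]
        ring
  · by_cases hki : k = i
    · by_cases hlj : l = j
      · simp only [hki, hlj, update_self, update_of_ne hij, inner_add_left, inner_add_right,
          real_inner_smul_left, real_inner_smul_right, hu, hij, hji, if_true, if_false]
        ring
      · by_cases hli : l = i
        · simp only [hki, hli, update_self, update_of_ne hij, inner_add_left, inner_add_right,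
            real_inner_smul_left, real_inner_smul_right, hu, hij, hji, if_true, if_false]
          linear_combination h
        · simp only [hki, update_self, update_of_ne hij, update_of_ne hlj, update_of_ne hli,
            inner_add_left, real_inner_smul_left, hu, Ne.symm hlj, Ne.symm hli, if_false]
          ring
    · by_cases hlj : l = j
      · simp only [hlj, update_self, update_of_ne hkj, update_of_ne hki, inner_add_right,
          real_inner_smul_right, hu, hkj, hki, if_false]
        ring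
      · by_cases hli : l = i
        · simp only [hli, update_self, update_of_ne hij, update_of_ne hkj, update_of_ne hki,
            inner_add_right, real_inner_smul_right, hu, hkj, hki, if_false]
          ring
        · simp only [update_of_ne hkj, update_of_ne hki, update_of_ne hlj, update_of_ne hli, hu]

/-- `f` has the Schmidt expansion `∑_{i<N} σ i • u i ⊗ v i`. -/
def Rep (T : U →ₗ[ℝ] U →ₗ[ℝ] H) (f : H) (σ : ℕ → ℝ) (N : ℕ) : Prop :=
  ∃ u v : ℕ → U, Orthonormal ℝ u ∧ Orthonormal ℝ v ∧ f = ∑ i ∈ range N, σ i • T (u i) (v i)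

variable {T : U →ₗ[ℝ] U →ₗ[ℝ] H}

lemma Rep.succ {f : H} {σ : ℕ → ℝ} {N : ℕ} (h : Rep T f σ N) (h0 : σ N = 0) :
    Rep T f σ (N + 1) := by
  obtain ⟨u, v, hu, hv, hf⟩ := h
  exact ⟨u, v, hu, hv, by rw [sum_range_succ, h0, zero_smul, add_zero, hf]⟩

lemma Rep.bound (hT : ∀ u v u' v', inner ℝ (T u v) (T u' v') = inner ℝ u u' * inner ℝ v v')
    {f : H} {σ : ℕ → ℝ} {N : ℕ} (h : Rep T f σ N) {M : ℝ} (hM : 0 ≤ M)
    (hσ : ∀ i, 0 ≤ σ i ∧ σ i ≤ M) {x y : U} (hx : ‖x‖ = 1) (hy : ‖y‖ = 1) :
    |inner ℝ f (T x y)| ≤ M := by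
  obtain ⟨u, v, hu, hv, rfl⟩ := h
  rw [sum_inner]
  simp only [inner_smul_left, hT, conj_trivial]
  refine (abs_sum_le_sum_abs _ _).trans ?_
  have h1 := hu.sum_inner_products_le (s := range N) x
  have h2 := hv.sum_inner_products_le (s := range N) y
  rw [hx] at h1
  rw [hy] at h2
  simp only [Real.norm_eq_abs, sq_abs] at h1 h2
  calc ∑ i ∈ range N, |σ i * (inner ℝ (u i) x * inner ℝ (v i) y)|
      ≤ ∑ i ∈ range N, M / 2 * (inner ℝ (u i) x ^ 2 + inner ℝ (v i) y ^ 2) := by
        refine sum_le_sum fun i _ => ?_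
        rw [abs_mul, abs_of_nonneg (hσ i).1]
        have h3 : |inner ℝ (u i) x * inner ℝ (v i) y|
            ≤ (inner ℝ (u i) x ^ 2 + inner ℝ (v i) y ^ 2) / 2 := by
          rw [abs_le]
          constructor
          · nlinarith [sq_nonneg (inner ℝ (u i) x + inner ℝ (v i) y)]
          · nlinarith [sq_nonneg (inner ℝ (u i) x - inner ℝ (v i) y)]
        calc σ i * |inner ℝ (u i) x * inner ℝ (v i) y|
            ≤ M * ((inner ℝ (u i) x ^ 2 + inner ℝ (v i) y ^ 2) / 2) :=
              mul_le_mul (hσ i).2 h3 (abs_nonneg _) hM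
          _ = _ := by ring
    _ = M / 2 * (∑ i ∈ range N, inner ℝ (u i) x ^ 2 + ∑ i ∈ range N, inner ℝ (v i) y ^ 2) := by
        rw [← mul_sum, sum_add_distrib]
    _ ≤ M / 2 * (1 ^ 2 + 1 ^ 2) := by gcongr
    _ = M := by ring

lemma Rep.norm_sq (hT : ∀ u v u' v', inner ℝ (T u v) (T u' v') = inner ℝ u u' * inner ℝ v v')
    {f : H} {σ : ℕ → ℝ} {N : ℕ} (h : Rep T f σ N) :
    ‖f‖ ^ 2 = ∑ i ∈ range N, σ i ^ 2 := by
  obtain ⟨u, v, hu, hv, rfl⟩ := h
  have ho : Orthonormal ℝ fun i => T (u i) (v i) := by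
    rw [orthonormal_iff_ite] at hu hv ⊢
    intro i j
    rw [hT, hu, hv]
    split_ifs <;> simp
  rw [← real_inner_self_eq_norm_sq, ho.inner_sum]
  simp [sq]

lemma sum_range_split {E : Type*} [AddCommMonoid E] (F : ℕ → E) {N i j : ℕ} (hi : i < N)
    (hj : j < N) (hij : i ≠ j) :
    ∑ k ∈ range N, F k = F i + F j + ∑ k ∈ ((range N).erase i).erase j, F k := by
  rw [add_assoc, add_sum_erase _ F (mem_erase.mpr ⟨hij.symm, mem_range.mpr hj⟩),
    add_sum_erase _ F (mem_range.mpr hi)]

lemma Rep.step (hT : ∀ u v u' v', inner ℝ (T u v) (T u' v') = inner ℝ u u' * inner ℝ v v')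
    {f : H} {σ : ℕ → ℝ} {N : ℕ} (h : Rep T f σ N) {i j : ℕ} (hi : i < N) (hj : j < N)
    (hij : i ≠ j) {c : ℝ} (hc : 0 ≤ c) (hcσ : c ≤ σ i) (hr : 0 ≤ σ j) :
    ∃ x y : U, ‖x‖ = 1 ∧ ‖y‖ = 1 ∧ inner ℝ f (T x y) = c ∧
      ∃ a b : ℝ, 0 ≤ a ∧ 0 ≤ b ∧ a * b = (σ i - c) * (σ j + c) ∧ a - b = σ i - c - σ j ∧
        Rep T (f - c • T x y) (update (update σ i a) j b) N := by
  obtain ⟨u, v, hu, hv, hf⟩ := h
  obtain ⟨C, S, hCS, hang⟩ := exists_angle (σ i) (σ j) c hr hc hcσ
  obtain ⟨α, β, l1, l2, hαβ, hl, hp, hw, hz⟩ :=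
    exists_diag (σ i - c * C ^ 2) (-(c * (C * S))) (-σ j - c * S ^ 2)
  have htr : l1 + l2 = σ i - c - σ j := by
    linear_combination -hp - hz - (l1 + l2) * hαβ - c * hCS
  have hdet : l1 * l2 = -((σ i - c) * (σ j + c)) := by
    have e1 : (σ i - c * C ^ 2) * (-σ j - c * S ^ 2) - (-(c * (C * S))) ^ 2
        = l1 * l2 * (α ^ 2 + β ^ 2) ^ 2 := by
      rw [hp, hz, hw]; ring
    rw [hαβ] at e1
    linear_combination -e1 + c * hang - c * (σ i - σ j) * hCS
  have hdet0 : l1 * l2 ≤ 0 := by
    rw [hdet]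
    have := mul_nonneg (sub_nonneg.mpr hcσ) (add_nonneg hr hc)
    linarith
  have hl1 : 0 ≤ l1 := by
    by_contra hneg
    push Not at hneg
    nlinarith [mul_pos_of_neg_of_neg hneg (lt_of_le_of_lt hl hneg)]
  have hl2 : l2 ≤ 0 := by
    by_contra hpos
    push Not at hpos
    nlinarith [mul_pos hpos (lt_of_lt_of_le hpos hl)]
  have hou := orthonormal_rotate hu hij hCS
  have hov := orthonormal_rotate hv hij (α := C) (β := -S) (by rw [neg_sq]; exact hCS)
  have hx : ‖C • u i + S • u j‖ = 1 := by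
    have := hou.1 i
    simpa [update_of_ne hij] using this
  have hy : ‖C • v i + (-S) • v j‖ = 1 := by
    have := hov.1 i
    simpa [update_of_ne hij] using this
  refine ⟨C • u i + S • u j, C • v i + (-S) • v j, hx, hy, ?_, l1, -l2, hl1, by linarith,
    by linarith, by linarith, ?_⟩
  · rw [orthonormal_iff_ite] at hu hv
    rw [hf, sum_inner, sum_range_split _ hi hj hij]
    have h0 : ∑ k ∈ ((range N).erase i).erase j,
        inner ℝ (σ k • T (u k) (v k)) (T (C • u i + S • u j) (C • v i + (-S) • v j)) = 0 := by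
      refine sum_eq_zero fun k hk => ?_
      have hkj : k ≠ j := (mem_erase.mp hk).1
      have hki : k ≠ i := (mem_erase.mp (mem_erase.mp hk).2).1
      rw [inner_smul_left, hT]
      simp [inner_add_right, inner_smul_right, hu, hkj, hki]
    rw [h0, inner_smul_left, inner_smul_left, hT, hT]
    simp only [inner_add_right, inner_smul_right, hu, hv, hij, hij.symm, if_true, if_false,
      conj_trivial]
    linear_combination hang
  · refine ⟨_, _, orthonormal_rotate hu hij hαβ,
      orthonormal_rotate hv hij (α := α) (β := -β) (by rw [neg_sq]; exact hαβ), ?_⟩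
    rw [hf, sum_range_split _ hi hj hij, sum_range_split _ hi hj hij]
    have h0 : ∑ k ∈ ((range N).erase i).erase j, update (update σ i l1) j (-l2) k •
        T (update (update u i (α • u i + β • u j)) j ((-β) • u i + α • u j) k)
          (update (update v i (α • v i + (-β) • v j)) j ((- -β) • v i + α • v j) k)
        = ∑ k ∈ ((range N).erase i).erase j, σ k • T (u k) (v k) := by
      refine sum_congr rfl fun k hk => ?_
      have hkj : k ≠ j := (mem_erase.mp hk).1
      have hki : k ≠ i := (mem_erase.mp (mem_erase.mp hk).2).1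
      simp only [update_of_ne hkj, update_of_ne hki]
    rw [h0]
    simp only [update_of_ne hij, update_self, map_add, map_smul, LinearMap.add_apply,
      LinearMap.smul_apply]
    have e1 : σ i = l1 * α ^ 2 + l2 * β ^ 2 + c * C ^ 2 := by linarith
    have e2 : σ j = -(l1 * β ^ 2 + l2 * α ^ 2) - c * S ^ 2 := by linarith
    match_scalars
    · linear_combination hp
    · linear_combination -hz
    · ring
    · linear_combination hw
    · linear_combination -hw

end Pool.Agent.Lib.MP_8ec86e_an
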