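import Mathlib

/-!
Definitions for the Weak Greedy Algorithm with respect to the bilinear dictionary.
-/

open MeasureTheory Filter Topology

namespace Pool.Agent.Lib.MP_8ec86e_an

/-- The real Hilbert space of square integrable functions on the unit interval. -/
abbrev L2I : Type := Lp ℝ 2 (volume : Measure unitInterval)

/-- The real Hilbert space of square integrable functions on the unit square. -/
abbrev L2Sq : Type := Lp ℝ 2 (volume : Measure (unitInterval × unitInterval))

/-- The bilinear dictionary: all products `u(x) v(y)` with `u`, `v` of norm one. -/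
def Pi2 : Set L2Sq :=
  {g | ∃ u v : L2I, ‖u‖ = 1 ∧ ‖v‖ = 1 ∧ ∀ᵐ p : unitInterval × unitInterval, g p = u p.1 * v p.2}

/-- `φ 1, φ 2, …` are admissible choices and `r 0, r 1, …` the residuals of the Weak Greedy
Algorithm with weakness sequence `t 1, t 2, …` applied to `f`. -/
def IsRealization (t : ℕ → ℝ) (f : L2Sq) (φ r : ℕ → L2Sq) : Prop :=
  r 0 = f ∧ ∀ m : ℕ,
    φ (m + 1) ∈ Pi2 ∧
    t (m + 1) * sSup ((fun g => |inner ℝ (r m) g|) '' Pi2) ≤ |inner ℝ (r m) (φ (m + 1))| ∧
    r (m + 1) = r m - (inner ℝ (r m) (φ (m + 1))) • φ (m + 1)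

/-- The approximants `G m = f - r m` tend to `f` for every `f` and every realization. -/
def WGAConverges (t : ℕ → ℝ) : Prop :=
  ∀ (f : L2Sq) (φ r : ℕ → L2Sq), IsRealization t f φ r →
    Tendsto (fun m => f - r m) atTop (𝓝 f)

/-- The class `𝒱` of nonnegative sequences `x 1, x 2, …`; the index `s + 1` below runs over the
positive integers. -/
def InV (x : ℕ → ℝ) : Prop :=
  (∀ k, 1 ≤ k → 0 ≤ x k) ∧
  ∃ q : ℕ → ℕ, q 0 = 0 ∧ StrictMono q ∧
    Summable (fun s : ℕ => (2 : ℝ) ^ (s + 1) / ((q (s + 1) : ℝ) - (q s : ℝ))) ∧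
    Summable (fun s : ℕ => ((2 : ℝ) ^ (s + 1))⁻¹ * ∑ k ∈ Finset.Icc 1 (q (s + 1)), x k ^ 2)

end Pool.Agent.Lib.MP_8ec86e_an
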