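import Pool.Agent.Lib.MP_8ec86e_an.Block

/-!
The flattening strategy on the singular values.
-/

open Finset Function

namespace Pool.Agent.Lib.MP_8ec86e_an

section facts

variable {σ r c a b : ℝ}

lemma fact_energy (h1 : a * b = (σ - c) * (r + c)) (h2 : a - b = σ - c - r) :
    a ^ 2 + b ^ 2 = σ ^ 2 + r ^ 2 - c ^ 2 := by
  have : a ^ 2 + b ^ 2 = (a - b) ^ 2 + 2 * (a * b) := by ring
  rw [this, h1, h2]; ring

lemma fact_a_le (hc : 0 ≤ c) (hcσ : c ≤ σ) (hr : 0 ≤ r)
    (h1 : a * b = (σ - c) * (r + c)) (h2 : a - b = σ - c - r) : a ≤ σ := by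
  by_contra h
  push Not at h
  have h3 : r + c < b := by linarith
  have h4 : (σ - c) * (r + c) < a * b :=
    mul_lt_mul'' (by linarith) h3 (by linarith) (by linarith)
  linarith

lemma fact_le_b (hc : 0 ≤ c) (ha : 0 ≤ a) (hb : 0 ≤ b)
    (h1 : a * b = (σ - c) * (r + c)) (h2 : a - b = σ - c - r) : r ≤ b := by
  by_contra h
  push Not at h
  have h4 : a * b < (σ - c) * (r + c) :=
    mul_lt_mul'' (by linarith) (by linarith) ha hb
  linarith

lemma fact_gain {L : ℝ} (hL : 0 < L) (hc : 0 ≤ c) (hcσ : c ≤ σ) (hr : 0 ≤ r) (ha : 0 ≤ a)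
    (hb : 0 ≤ b) (h1 : a * b = (σ - c) * (r + c)) (h2 : a - b = σ - c - r)
    (hσ : L < σ) (hrL : r ≤ L / 3) : L * c / 5 ≤ c ^ 2 + L / 3 * (b - r) := by
  have h3 := fact_a_le hc hcσ hr h1 h2
  have h4 := fact_le_b hc ha hb h1 h2
  by_cases h : L / 5 ≤ c
  · nlinarith [mul_nonneg hL.le (sub_nonneg.mpr h4)]
  · push Not at h
    set y := b - r with hy
    set α := σ - c with hα
    have hy0 : 0 ≤ y := by linarith
    have hyc : y ≤ c := by linarith
    have hαpos : 4 * L / 5 < α := by linarith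
    have e : y * (r + α + y) = α * c := by
      have ea : a = α + y := by linarith
      have eb : b = r + y := by linarith
      rw [ea, eb] at h1
      linarith
    have h5 : r + α + y ≤ 5 / 3 * α := by linarith
    have h6 : α * c ≤ α * (5 / 3 * y) := by nlinarith
    have h7 : c ≤ 5 / 3 * y := le_of_mul_le_mul_left h6 (by linarith)
    nlinarith [sq_nonneg c]

lemma fact_b_le {K : ℝ} (hc : 0 ≤ c) (hcσ : c ≤ σ) (hr : 0 ≤ r)
    (h1 : a * b = (σ - c) * (r + c)) (h2 : a - b = σ - c - r)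
    (hσ : σ ≤ K) (hrK : r ≤ K / 2) : b ≤ K := by
  have h3 := fact_a_le hc hcσ hr h1 h2
  have h4 := fact_energy h1 h2
  by_cases h : c ≤ K - r
  · linarith
  · push Not at h
    by_contra h5
    push Not at h5
    nlinarith [sq_nonneg a]

end facts

/-- The energy of a coordinate above level `L`. -/
noncomputable def psi (L x : ℝ) : ℝ := if L < x then x ^ 2 else 0

lemma psi_nonneg (L x : ℝ) : 0 ≤ psi L x := by
  unfold psi; split_ifs <;> positivity

lemma psi_le (L x : ℝ) : psi L x ≤ x ^ 2 := by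
  unfold psi; split_ifs
  · exact le_rfl
  · positivity

lemma psi_of_le {L x : ℝ} (h : x ≤ L) : psi L x = 0 := if_neg (not_lt.mpr h)

lemma psi_of_lt {L x : ℝ} (h : L < x) : psi L x = x ^ 2 := if_pos h

/-- The invariant of the strategy. -/
def Inv (σ : ℕ → ℝ) (N : ℕ) (M L P E : ℝ) : Prop :=
  (∀ i, N ≤ i → σ i = 0) ∧ (∀ i, 0 ≤ σ i ∧ σ i ≤ M) ∧
  E ≤ ∑ i ∈ range (N + 1), σ i ^ 2 ∧ ∑ i ∈ range (N + 1), σ i ^ 2 ≤ 1 ∧
  ((∀ i, σ i ≤ L) ∨ ∃ j, j ≤ N ∧ σ j ≤ L / 3 ∧
    ∑ i ∈ range (N + 1), psi L (σ i) + σ j ^ 2 - L / 3 * σ j ≤ P)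

lemma sum_update_two (F : ℝ → ℝ) (hF : F 0 = 0) (σ : ℕ → ℝ) {N i j : ℕ} (hi : i < N + 1)
    (hj : j < N + 1) (hij : i ≠ j) (h0 : σ (N + 1) = 0) (a b : ℝ) :
    ∑ k ∈ range (N + 1 + 1), F (update (update σ i a) j b k)
      = ∑ k ∈ range (N + 1), F (σ k) - F (σ i) - F (σ j) + F a + F b := by
  rw [sum_range_succ, sum_range_split _ hi hj hij, sum_range_split (fun k => F (σ k)) hi hj hij]
  have h1 : ∑ k ∈ ((range (N + 1)).erase i).erase j, F (update (update σ i a) j b k)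
      = ∑ k ∈ ((range (N + 1)).erase i).erase j, F (σ k) := by
    refine sum_congr rfl fun k hk => ?_
    have hkj : k ≠ j := (mem_erase.mp hk).1
    have hki : k ≠ i := (mem_erase.mp (mem_erase.mp hk).2).1
    simp only [update_of_ne hkj, update_of_ne hki]
  rw [h1, update_of_ne hij, update_self, update_self, update_of_ne (by omega),
    update_of_ne (by omega), h0, hF]
  ring

lemma update_two_prop (Q : ℝ → Prop) (σ : ℕ → ℝ) {i j : ℕ} {a b : ℝ} (hσ : ∀ k, Q (σ k))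
    (ha : Q a) (hb : Q b) (k : ℕ) : Q (update (update σ i a) j b k) := by
  by_cases hkj : k = j
  · rw [hkj, update_self]; exact hb
  · rw [update_of_ne hkj]
    by_cases hki : k = i
    · rw [hki, update_self]; exact ha
    · rw [update_of_ne hki]; exact hσ k

lemma Inv.step {σ : ℕ → ℝ} {N : ℕ} {M L P E δ t : ℝ} (h : Inv σ N M L P E) (hN : 1 ≤ N)
    (hL : 0 < L) (hLM : L ≤ M) (hδ : 0 ≤ δ) (hδL : δ ≤ L) (ht0 : 0 ≤ t) (ht1 : t ≤ 1) :
    ∃ (i j : ℕ) (c : ℝ), i < N + 1 ∧ j < N + 1 ∧ i ≠ j ∧ 0 ≤ c ∧ c ≤ σ i ∧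
      (∀ k, σ k ≤ σ i) ∧ t * σ i ≤ c ∧
      ∀ a b : ℝ, 0 ≤ a → 0 ≤ b → a * b = (σ i - c) * (σ j + c) → a - b = σ i - c - σ j →
        Inv (update (update σ i a) j b) (N + 1) M L (P - L * δ / 5)
          (E - (t ^ 2 * M ^ 2 + δ ^ 2)) := by
  obtain ⟨h0, hM, hE, hE1, hP⟩ := h
  obtain ⟨i, hi, hmax⟩ := exists_max_image (range N) σ ⟨0, mem_range.mpr (by omega)⟩
  have hi' : i < N := mem_range.mp hi
  have hmax' : ∀ k, σ k ≤ σ i := by
    intro k
    by_cases hk : k < N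
    · exact hmax k (mem_range.mpr hk)
    · rw [h0 k (by omega)]; exact (hM i).1
  have hσi := (hM i).1
  have htσ : t * σ i ≤ σ i := by nlinarith
  have htσ0 : 0 ≤ t * σ i := mul_nonneg ht0 hσi
  have htM : (t * σ i) ^ 2 ≤ t ^ 2 * M ^ 2 := by
    rw [mul_pow]
    have := (hM i).2
    gcongr
  have hzero : ∀ {j : ℕ} {a b : ℝ}, j < N + 1 →
      ∀ k, N + 1 ≤ k → update (update σ i a) j b k = 0 := by
    intro j a b hj k hk
    rw [update_of_ne (by omega), update_of_ne (by omega)]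
    exact h0 k (by omega)
  by_cases hsmall : σ i ≤ L
  · -- idle step
    refine ⟨i, N, t * σ i, by omega, by omega, by omega, htσ0, htσ, hmax', le_rfl, ?_⟩
    intro a b ha hb h1 h2
    have hr : 0 ≤ σ N := (hM N).1
    have hN0 : σ N = 0 := h0 N le_rfl
    have f1 := fact_energy h1 h2
    have f2 := fact_a_le htσ0 htσ hr h1 h2
    have f3 : b ≤ L := fact_b_le htσ0 htσ hr h1 h2 hsmall (by rw [hN0]; linarith)
    have hsq := sum_update_two (fun x => x ^ 2) (by norm_num) σ (N := N) (i := i) (j := N)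
      (by omega) (by omega) (by omega) (h0 _ (by omega)) a b
    refine ⟨hzero (by omega), ?_, ?_, ?_, Or.inl ?_⟩
    · exact update_two_prop (fun x => 0 ≤ x ∧ x ≤ M) σ hM ⟨ha, by linarith⟩ ⟨hb, by linarith⟩
    · rw [hsq]; nlinarith [sq_nonneg δ]
    · rw [hsq]; nlinarith [sq_nonneg (t * σ i)]
    · exact update_two_prop (fun x => x ≤ L) σ (fun k => (hmax' k).trans hsmall) (by linarith) f3
  · -- active step
    push Not at hsmall
    obtain ⟨j, hj, hjL, hpot⟩ := hP.resolve_left fun h => absurd (h i) (not_le.mpr hsmall)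
    have hij : i ≠ j := by
      rintro rfl
      linarith
    set c := max (t * σ i) δ with hcdef
    have hc : 0 ≤ c := le_max_of_le_right hδ
    have hcσ : c ≤ σ i := max_le htσ (by linarith)
    have hcδ : δ ≤ c := le_max_right _ _
    have hc2 : c ^ 2 ≤ t ^ 2 * M ^ 2 + δ ^ 2 := by
      rcases max_choice (t * σ i) δ with h | h
      · rw [hcdef, h]; nlinarith [sq_nonneg δ]
      · rw [hcdef, h]; nlinarith [sq_nonneg (t * σ i)]
    refine ⟨i, j, c, by omega, by omega, hij, hc, hcσ, hmax', le_max_left _ _, ?_⟩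
    intro a b ha hb h1 h2
    have hr : 0 ≤ σ j := (hM j).1
    have f1 := fact_energy h1 h2
    have f2 := fact_a_le hc hcσ hr h1 h2
    have f3 : b ≤ M := fact_b_le hc hcσ hr h1 h2 (hM i).2 (by linarith)
    have f4 := fact_gain hL hc hcσ hr ha hb h1 h2 hsmall hjL
    have hsq := sum_update_two (fun x => x ^ 2) (by norm_num) σ (N := N) (i := i) (j := j)
      (by omega) (by omega) hij (h0 _ (by omega)) a b
    have hps := sum_update_two (psi L) (psi_of_le hL.le) σ (N := N) (i := i) (j := j)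
      (by omega) (by omega) hij (h0 _ (by omega)) a b
    rw [psi_of_lt hsmall, psi_of_le (show σ j ≤ L by linarith)] at hps
    have hpa := psi_le L a
    have hLδ : L * δ ≤ L * c := mul_le_mul_of_nonneg_left hcδ hL.le
    refine ⟨hzero (by omega), ?_, ?_, ?_, Or.inr ?_⟩
    · exact update_two_prop (fun x => 0 ≤ x ∧ x ≤ M) σ hM ⟨ha, f2.trans (hM i).2⟩ ⟨hb, f3⟩
    · rw [hsq]; linarith
    · rw [hsq]; nlinarith [sq_nonneg c]
    · by_cases hb3 : b ≤ L / 3
      · refine ⟨j, by omega, by rw [update_self]; exact hb3, ?_⟩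
        rw [hps, update_self, psi_of_le (show b ≤ L by linarith)]
        nlinarith
      · push Not at hb3
        have hz : update (update σ i a) j b (N + 1) = 0 := hzero (by omega) _ le_rfl
        refine ⟨N + 1, le_rfl, by rw [hz]; linarith, ?_⟩
        rw [hps, hz]
        by_cases hbL : b ≤ L
        · rw [psi_of_le hbL]
          nlinarith
        · push Not at hbL
          rw [psi_of_lt hbL]
          have hc23 : 2 * L / 3 ≤ c := by linarith
          nlinarith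

lemma Inv.transition {σ : ℕ → ℝ} {N : ℕ} {M L P E : ℝ} (h : Inv σ N M L P E) (hL : 0 < L)
    (hP : P ≤ 0) {L' : ℝ} (hL' : 0 < L') : Inv σ N L L' 1 E := by
  obtain ⟨h0, hM, hE, hE1, hpot⟩ := h
  have hall : ∀ i, σ i ≤ L := by
    rcases hpot with h | ⟨j, hj, hjL, hpot⟩
    · exact h
    · intro i
      by_contra hi
      push Not at hi
      have hiN : i < N + 1 := by
        by_contra hcon
        rw [h0 i (by omega)] at hi
        linarith
      have h1 : psi L (σ i) ≤ ∑ k ∈ range (N + 1), psi L (σ k) :=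
        single_le_sum (f := fun k => psi L (σ k)) (fun k _ => psi_nonneg _ _) (mem_range.mpr hiN)
      rw [psi_of_lt hi] at h1
      nlinarith [sq_nonneg (σ j - L / 6)]
  refine ⟨h0, fun i => ⟨(hM i).1, hall i⟩, hE, hE1, Or.inr ⟨N, le_rfl, ?_, ?_⟩⟩
  · rw [h0 N le_rfl]; linarith
  · rw [h0 N le_rfl]
    have : ∑ k ∈ range (N + 1), psi L' (σ k) ≤ ∑ k ∈ range (N + 1), σ k ^ 2 :=
      sum_le_sum fun k _ => psi_le _ _
    linarith

lemma Inv.mono {σ : ℕ → ℝ} {N : ℕ} {M L P E P' E' : ℝ} (h : Inv σ N M L P E) (hP : P ≤ P')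
    (hE : E' ≤ E) : Inv σ N M L P' E' := by
  obtain ⟨h0, hM, hE0, hE1, hpot⟩ := h
  refine ⟨h0, hM, hE.trans hE0, hE1, hpot.imp id ?_⟩
  rintro ⟨j, hj, hjL, h⟩
  exact ⟨j, hj, hjL, h.trans hP⟩

end Pool.Agent.Lib.MP_8ec86e_an
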