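import Pool.Agent.Lib.MP_8ec86e_an.Defs
import Pool.Agent.Lib.MP_8ec86e_an.Game

/-!
For `t ∈ 𝒱` there is a realization of the Weak Greedy Algorithm for the bilinear dictionary
whose residuals stay bounded away from zero.
-/

open Finset Function Filter Topology

namespace Pool.Agent.Lib.MP_8ec86e_an

/-- The parameters of the stages. -/
lemma exists_stages (t : ℕ → ℝ) (hV : InV t) :
    ∃ (p : ℕ → ℕ) (l δ cost : ℕ → ℝ) (N0 : ℕ), p 0 = 0 ∧ (∀ s, p s < p (s + 1)) ∧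
      (∀ s, 0 < l s) ∧ (∀ s, l (s + 1) ≤ l s) ∧ (∀ s, 0 ≤ δ s) ∧ (∀ s, δ s ≤ l (s + 1)) ∧
      (∀ s, l (s + 1) * δ s * ((p (s + 1) : ℝ) - p s) = 5) ∧
      (∀ S, ∑ s ∈ range S, cost s ≤ 1 / 2) ∧
      (∀ s n, p s ≤ n → n ≤ p (s + 1) →
        l s ^ 2 * ∑ k ∈ Ioc (p s) n, t k ^ 2 + δ s ^ 2 * ((n : ℝ) - p s) ≤ cost s) ∧
      1 ≤ N0 ∧ (N0 : ℝ) * l 1 ^ 2 = 1 := by
  obtain ⟨-, q, hq0, hq, hA, hB⟩ := hV
  set A : ℕ → ℝ := fun s => (2 : ℝ) ^ (s + 1) / ((q (s + 1) : ℝ) - (q s : ℝ)) with hAdef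
  set B : ℕ → ℝ := fun s => ((2 : ℝ) ^ (s + 1))⁻¹ * ∑ k ∈ Finset.Icc 1 (q (s + 1)), t k ^ 2
    with hBdef
  have hqd : ∀ s, (0 : ℝ) < (q (s + 1) : ℝ) - q s := by
    intro s
    have : (q s : ℝ) < q (s + 1) := by exact_mod_cast hq (Nat.lt_succ_self s)
    linarith
  have hA0 : ∀ s, 0 ≤ A s := fun s => div_nonneg (by positivity) (hqd s).le
  have hB0 : ∀ s, 0 ≤ B s := fun s =>
    mul_nonneg (by positivity) (sum_nonneg fun k _ => sq_nonneg _)
  have hC : Summable fun s => 25 * A s + 2 * B s := (hA.mul_left 25).add (hB.mul_left 2)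
  have hC0 : ∀ s, 0 ≤ 25 * A s + 2 * B s := fun s => by linarith [hA0 s, hB0 s]
  obtain ⟨s0, hs0⟩ : ∃ s0 : ℕ, ∑' s, (25 * A (s + s0) + 2 * B (s + s0)) ≤ 1 / 2 :=
    ((tendsto_sum_nat_add fun s => 25 * A s + 2 * B s).eventually
      (eventually_le_nhds (show (0 : ℝ) < 1 / 2 by norm_num))).exists
  have hC' : Summable fun s => 25 * A (s + s0) + 2 * B (s + s0) :=
    (summable_nat_add_iff (f := fun s => 25 * A s + 2 * B s) s0).mpr hC
  have hsum : ∀ S, ∑ s ∈ range S, (25 * A (s + s0) + 2 * B (s + s0)) ≤ 1 / 2 := fun S =>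
    (hC'.sum_le_tsum _ fun s _ => hC0 _).trans hs0
  have hone : ∀ s, 25 * A (s + s0) + 2 * B (s + s0) ≤ 1 / 2 := fun s =>
    (hC'.le_tsum s fun s _ => hC0 _).trans hs0
  set p : ℕ → ℕ := fun s => if s = 0 then 0 else q (s + s0) with hp
  have hp1 : ∀ s, p (s + 1) = q (s + s0 + 1) := by
    intro s
    simp only [hp, Nat.add_eq_zero_iff, one_ne_zero, and_false, if_false]
    congr 1; omega
  have hp2 : ∀ s, p s ≤ q (s + s0) := by
    intro s
    simp only [hp]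
    split_ifs
    · exact Nat.zero_le _
    · exact le_rfl
  have hplt : ∀ s, p s < p (s + 1) := by
    intro s
    rw [hp1]
    exact lt_of_le_of_lt (hp2 s) (hq (Nat.lt_succ_self _))
  have hpd : ∀ s, (q (s + s0 + 1) : ℝ) - q (s + s0) ≤ (p (s + 1) : ℝ) - p s := by
    intro s
    rw [hp1]
    have : (p s : ℝ) ≤ q (s + s0) := by exact_mod_cast hp2 s
    linarith
  have hpd0 : ∀ s, (0 : ℝ) < (p (s + 1) : ℝ) - p s := fun s => (hqd _).trans_le (hpd s)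
  set l : ℕ → ℝ := fun s => Real.sqrt ((2 ^ (s + s0))⁻¹) with hl
  have hl0 : ∀ s, 0 < l s := fun s => Real.sqrt_pos.mpr (by positivity)
  have hl2 : ∀ s, l s ^ 2 = (2 ^ (s + s0))⁻¹ := fun s => Real.sq_sqrt (by positivity)
  have hl2' : ∀ s, l (s + 1) ^ 2 = (2 ^ (s + s0 + 1))⁻¹ := fun s => by
    rw [hl2]; congr 2; omega
  have hAle : ∀ s, (2 : ℝ) ^ (s + s0 + 1) / ((p (s + 1) : ℝ) - p s) ≤ A (s + s0) := fun s =>
    div_le_div_of_nonneg_left (by positivity) (hqd _) (hpd s)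
  refine ⟨p, l, fun s => 5 / (l (s + 1) * ((p (s + 1) : ℝ) - p s)),
    fun s => 25 * A (s + s0) + 2 * B (s + s0), 2 ^ (s0 + 1), by simp [hp], hplt, hl0, ?_, ?_, ?_,
    ?_, hsum, ?_, Nat.one_le_two_pow, ?_⟩
  · intro s
    apply Real.sqrt_le_sqrt
    apply inv_anti₀ (by positivity)
    exact pow_le_pow_right₀ (by norm_num) (by omega)
  · intro s
    exact div_nonneg (by norm_num) (mul_pos (hl0 _) (hpd0 s)).le
  · intro s
    have h1 := hAle s
    have h2 := hone s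
    have h3 := hB0 (s + s0)
    have h4 := hpd0 s
    rw [div_le_iff₀ (mul_pos (hl0 _) (hpd0 s)), ← mul_assoc, ← sq, hl2']
    rw [div_le_iff₀ h4] at h1
    rw [inv_mul_eq_div, le_div_iff₀ (by positivity)]
    have h5 : A (s + s0) * ((p (s + 1) : ℝ) - p s) ≤ 1 / 50 * ((p (s + 1) : ℝ) - p s) :=
      mul_le_mul_of_nonneg_right (by linarith) h4.le
    have h6 : (0 : ℝ) < 2 ^ (s + s0 + 1) := by positivity
    linarith
  · intro s
    have := hl0 (s + 1)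
    have := hpd0 s
    field_simp
  · intro s n h1 h2
    have h4 := hpd0 s
    have e1 : l s ^ 2 * ∑ k ∈ Ioc (p s) n, t k ^ 2 ≤ 2 * B (s + s0) := by
      have : ∑ k ∈ Ioc (p s) n, t k ^ 2 ≤ ∑ k ∈ Finset.Icc 1 (q (s + s0 + 1)), t k ^ 2 := by
        refine sum_le_sum_of_subset_of_nonneg (fun k hk => ?_) fun k _ _ => sq_nonneg _
        rw [mem_Ioc] at hk
        rw [hp1] at h2
        rw [mem_Icc]
        omega
      rw [hl2]
      simp only [hBdef]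
      rw [← mul_assoc]
      have e : (2 : ℝ) * (2 ^ (s + s0 + 1))⁻¹ = (2 ^ (s + s0))⁻¹ := by
        rw [pow_succ]; field_simp
      rw [e]
      exact mul_le_mul_of_nonneg_left this (by positivity)
    have e2 : (5 / (l (s + 1) * ((p (s + 1) : ℝ) - p s))) ^ 2 * ((n : ℝ) - p s)
        ≤ 25 * A (s + s0) := by
      have h5 : (n : ℝ) - p s ≤ (p (s + 1) : ℝ) - p s := by
        have : (n : ℝ) ≤ p (s + 1) := by exact_mod_cast h2
        linarith
      calc (5 / (l (s + 1) * ((p (s + 1) : ℝ) - p s))) ^ 2 * ((n : ℝ) - p s)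
          ≤ (5 / (l (s + 1) * ((p (s + 1) : ℝ) - p s))) ^ 2 * ((p (s + 1) : ℝ) - p s) :=
            mul_le_mul_of_nonneg_left h5 (sq_nonneg _)
        _ = 25 * (2 ^ (s + s0 + 1) / ((p (s + 1) : ℝ) - p s)) := by
            rw [div_pow, mul_pow, hl2']; field_simp; norm_num
        _ ≤ 25 * A (s + s0) := by linarith [hAle s]
    linarith
  · rw [hl2, add_comm 1 s0]
    push_cast
    field_simp

variable {U H : Type*} [NormedAddCommGroup U] [InnerProductSpace ℝ U]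
  [NormedAddCommGroup H] [InnerProductSpace ℝ H]

theorem exists_bad_realization (T : U →ₗ[ℝ] U →ₗ[ℝ] H)
    (hT : ∀ u v u' v', inner ℝ (T u v) (T u' v') = inner ℝ u u' * inner ℝ v v')
    (e : ℕ → U) (he : Orthonormal ℝ e) (D : Set H)
    (hD : ∀ g, g ∈ D ↔ ∃ x y : U, ‖x‖ = 1 ∧ ‖y‖ = 1 ∧ g = T x y)
    (t : ℕ → ℝ) (ht : ∀ k, 1 ≤ k → 0 ≤ t k ∧ t k ≤ 1) (hV : InV t) :
    ∃ φ r : ℕ → H, (∀ m : ℕ, φ (m + 1) ∈ D ∧
      t (m + 1) * sSup ((fun g => |inner ℝ (r m) g|) '' D) ≤ |inner ℝ (r m) (φ (m + 1))| ∧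
      r (m + 1) = r m - (inner ℝ (r m) (φ (m + 1))) • φ (m + 1)) ∧
      ∀ m, 1 / 2 ≤ ‖r m‖ ^ 2 := by
  obtain ⟨p, l, δ, cost, N0, hp0, hp, hl0, hl, hδ0, hδl, hδ5, hcost, hbd, hN0, hN1⟩ :=
    exists_stages t hV
  let Good : ℕ → H → Prop := fun n f => ∃ (s : ℕ) (σ : ℕ → ℝ), p s ≤ n ∧ n < p (s + 1) ∧
    Rep T f σ (N0 + n + 1) ∧
    Inv σ (N0 + n) (l s) (l (s + 1)) (1 - l (s + 1) * δ s * ((n : ℝ) - p s) / 5)
      (1 - ∑ s' ∈ range s, cost s' -
        (l s ^ 2 * ∑ k ∈ Ioc (p s) n, t k ^ 2 + δ s ^ 2 * ((n : ℝ) - p s)))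
  have hnorm : ∀ n f, Good n f → 1 / 2 ≤ ‖f‖ ^ 2 := by
    rintro n f ⟨s, σ, h1, h2, hrep, hinv⟩
    rw [hrep.norm_sq hT]
    have h3 := hinv.2.2.1
    have h4 := hbd s n h1 h2.le
    have h5 := hcost (s + 1)
    rw [sum_range_succ] at h5
    linarith
  have hinit : ∃ f, Good 0 f := by
    refine ⟨_, 0, fun i => if i < N0 then l 1 else 0, hp0.le, by simpa [hp0] using hp 0,
      ⟨e, e, he, he, rfl⟩, ?_⟩
    have hs : ∑ i ∈ range (N0 + 0 + 1), (if i < N0 then l 1 else 0) ^ 2 = 1 := by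
      rw [add_zero, sum_range_succ, if_neg (lt_irrefl _),
        sum_congr rfl (g := fun _ => l 1 ^ 2) fun i hi => by rw [if_pos (mem_range.mp hi)]]
      simp [hN1]
    refine ⟨fun i hi => if_neg (by omega), fun i => ?_, ?_, hs.le, Or.inl fun i => ?_⟩
    · dsimp only
      split_ifs
      · exact ⟨(hl0 1).le, hl 0⟩
      · exact ⟨le_rfl, (hl0 0).le⟩
    · rw [hs, hp0]; simp
    · dsimp only
      split_ifs
      · exact le_rfl
      · exact (hl0 1).le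
  have hstep : ∀ n f, Good n f → ∃ φ, φ ∈ D ∧
      t (n + 1) * sSup ((fun g => |inner ℝ f g|) '' D) ≤ |inner ℝ f φ| ∧
      Good (n + 1) (f - (inner ℝ f φ) • φ) := by
    rintro n f ⟨s, σ, h1, h2, hrep, hinv⟩
    obtain ⟨ht0, ht1⟩ := ht (n + 1) (by omega)
    obtain ⟨i, j, c, hi, hj, hij, hc, hcσ, hmax, htc, hnext⟩ :=
      hinv.step (by omega) (hl0 _) (hl s) (hδ0 s) (hδl s) ht0 ht1
    have hpos : ∀ k, 0 ≤ σ k := fun k => (hinv.2.1 k).1
    obtain ⟨x, y, hx, hy, hin, a, b, ha, hb, hab1, hab2, hrep'⟩ :=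
      hrep.step hT hi hj hij hc hcσ (hpos j)
    have hinv' := hnext a b ha hb hab1 hab2
    refine ⟨T x y, (hD _).mpr ⟨x, y, hx, hy, rfl⟩, ?_, ?_⟩
    · rw [hin, abs_of_nonneg hc]
      refine le_trans (mul_le_mul_of_nonneg_left ?_ ht0) htc
      apply Real.sSup_le _ (hpos i)
      rintro _ ⟨g, hg, rfl⟩
      obtain ⟨x', y', hx', hy', rfl⟩ := (hD g).mp hg
      exact hrep.bound hT (hpos i) (fun k => ⟨hpos k, hmax k⟩) hx' hy'
    · rw [hin]
      have hrep'' := hrep'.succ (hinv'.1 _ le_rfl)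
      have hinv2 : Inv (update (update σ i a) j b) (N0 + (n + 1)) (l s) (l (s + 1))
          (1 - l (s + 1) * δ s * (((n + 1 : ℕ) : ℝ) - p s) / 5)
          (1 - ∑ s' ∈ range s, cost s' -
            (l s ^ 2 * ∑ k ∈ Ioc (p s) (n + 1), t k ^ 2
              + δ s ^ 2 * (((n + 1 : ℕ) : ℝ) - p s))) := by
        refine hinv'.mono (le_of_eq ?_) (le_of_eq ?_)
        · push_cast; ring
        · rw [sum_Ioc_succ_top h1]; push_cast; ring
      rcases Nat.lt_or_ge (n + 1) (p (s + 1)) with hlt | hge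
      · exact ⟨s, _, by omega, hlt, hrep'', hinv2⟩
      · have heq : n + 1 = p (s + 1) := by omega
        refine ⟨s + 1, _, heq.ge, by rw [heq]; exact hp _, hrep'', ?_⟩
        have h5 := hδ5 s
        have h6 := hbd s (n + 1) (by omega) heq.le
        refine (hinv2.transition (hl0 _) ?_ (hl0 (s + 1 + 1))).mono ?_ ?_
        · rw [heq, h5]; norm_num
        · rw [heq]; simp
        · rw [sum_range_succ, ← heq]
          simp only [Ioc_self, sum_empty, mul_zero, sub_self, add_zero, sub_zero]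
          linarith
  choose! Φ hΦ using hstep
  obtain ⟨f0, hf0⟩ := hinit
  let r : ℕ → H := fun n => Nat.rec f0 (fun m g => g - (inner ℝ g (Φ m g)) • Φ m g) n
  have hgood : ∀ n, Good n (r n) := by
    intro n
    induction n with
    | zero => exact hf0
    | succ n ih => exact (hΦ n (r n) ih).2.2
  refine ⟨fun n => Φ (n - 1) (r (n - 1)), r, fun m => ?_, fun m => hnorm m _ (hgood m)⟩
  simp only [Nat.add_sub_cancel]
  exact ⟨(hΦ m (r m) (hgood m)).1, (hΦ m (r m) (hgood m)).2.1, rfl⟩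

end Pool.Agent.Lib.MP_8ec86e_an
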