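import Pool.Agent.Lib.MP_8ec86e_an.Game

/-!
The flattening strategy on a square summable sequence of singular values.
-/

open Finset Function Filter Topology

namespace Pool.Agent.Lib.MP_8ec86e_an

lemma hasSum_update_two {F : ℝ → ℝ} {σ : ℕ → ℝ} {S : ℝ} (h : HasSum (fun k => F (σ k)) S)
    {i j : ℕ} (hij : i ≠ j) (a b : ℝ) :
    HasSum (fun k => F (update (update σ i a) j b k)) (S - F (σ i) - F (σ j) + F a + F b) := by
  have h1 := (h.update i (F a)).update j (F b)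
  rw [update_of_ne hij.symm] at h1
  have e : (fun k => F (update (update σ i a) j b k))
      = update (update (fun k => F (σ k)) i (F a)) j (F b) := by
    funext k
    by_cases hkj : k = j
    · rw [hkj, update_self, update_self]
    · rw [update_of_ne hkj, update_of_ne hkj]
      by_cases hki : k = i
      · rw [hki, update_self, update_self]
      · rw [update_of_ne hki, update_of_ne hki]
  have e' : S - F (σ i) - F (σ j) + F a + F b = F b - F (σ j) + (F a - F (σ i) + S) := by ring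
  rw [e, e']
  exact h1

lemma eventually_le_of_sq {σ : ℕ → ℝ} (h : Summable fun k => σ k ^ 2) {η : ℝ} (hη : 0 < η) :
    ∀ᶠ k in atTop, σ k ≤ η := by
  filter_upwards [h.tendsto_atTop_zero.eventually (eventually_le_nhds (pow_pos hη 2))] with k hk
  exact (abs_le_of_sq_le_sq' hk hη.le).2

lemma exists_fresh {σ : ℕ → ℝ} (h : Summable fun k => σ k ^ 2) {η : ℝ} (hη : 0 < η) (i j : ℕ) :
    ∃ k, k ≠ i ∧ k ≠ j ∧ σ k ≤ η :=
  ((eventually_ne_atTop i).and ((eventually_ne_atTop j).and (eventually_le_of_sq h hη))).exists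

lemma exists_top {σ : ℕ → ℝ} (h : Summable fun k => σ k ^ 2) (h0 : ∀ k, 0 ≤ σ k) :
    ∃ i, ∀ k, σ k ≤ σ i := by
  by_cases hz : ∀ k, σ k ≤ 0
  · exact ⟨0, fun k => (hz k).trans (h0 0)⟩
  · push Not at hz
    obtain ⟨k0, hk0⟩ := hz
    obtain ⟨N, hN⟩ := eventually_atTop.mp (eventually_le_of_sq h hk0)
    obtain ⟨i, -, hmax⟩ := exists_max_image (range (N + k0 + 1)) σ ⟨0, mem_range.mpr (by omega)⟩
    refine ⟨i, fun k => ?_⟩
    by_cases hk : k < N
    · exact hmax k (mem_range.mpr (by omega))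
    · exact (hN k (by omega)).trans (hmax k0 (mem_range.mpr (by omega)))

lemma summable_psi {σ : ℕ → ℝ} (h : Summable fun k => σ k ^ 2) (L : ℝ) :
    Summable fun k => psi L (σ k) :=
  h.of_nonneg_of_le (fun _ => psi_nonneg _ _) fun _ => psi_le _ _

/-- The invariant of the strategy. -/
def InvI (σ : ℕ → ℝ) (M L P E : ℝ) : Prop :=
  (Summable fun i => σ i ^ 2) ∧ (∀ i, 0 ≤ σ i ∧ σ i ≤ M) ∧
  E ≤ ∑' i, σ i ^ 2 ∧ ∑' i, σ i ^ 2 ≤ 1 ∧
  ((∀ i, σ i ≤ L) ∨ ∃ j, σ j ≤ L / 3 ∧ ∑' i, psi L (σ i) + σ j ^ 2 - L / 3 * σ j ≤ P)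

lemma InvI.step {σ : ℕ → ℝ} {M L P E δ t : ℝ} (h : InvI σ M L P E)
    (hL : 0 < L) (hLM : L ≤ M) (hδ : 0 ≤ δ) (hδL : δ ≤ L) (ht0 : 0 ≤ t) (ht1 : t ≤ 1) :
    ∃ (i j : ℕ) (c : ℝ), i ≠ j ∧ 0 ≤ c ∧ c ≤ σ i ∧ (∀ k, σ k ≤ σ i) ∧ t * σ i ≤ c ∧
      ∀ a b : ℝ, 0 ≤ a → 0 ≤ b → a * b = (σ i - c) * (σ j + c) → a - b = σ i - c - σ j →
        InvI (update (update σ i a) j b) M L (P - L * δ / 5) (E - (t ^ 2 * M ^ 2 + δ ^ 2)) := by
  obtain ⟨h0, hM, hE, hE1, hP⟩ := h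
  obtain ⟨i, hmax'⟩ := exists_top h0 fun k => (hM k).1
  have hσi := (hM i).1
  have htσ : t * σ i ≤ σ i := by nlinarith
  have htσ0 : 0 ≤ t * σ i := mul_nonneg ht0 hσi
  have htM : (t * σ i) ^ 2 ≤ t ^ 2 * M ^ 2 := by
    rw [mul_pow]
    have := (hM i).2
    gcongr
  by_cases hsmall : σ i ≤ L
  · obtain ⟨N, hNi, -, hN0⟩ := exists_fresh h0 (half_pos hL) i i
    refine ⟨i, N, t * σ i, hNi.symm, htσ0, htσ, hmax', le_rfl, ?_⟩
    intro a b ha hb h1 h2
    have hr : 0 ≤ σ N := (hM N).1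
    have f1 := fact_energy h1 h2
    have f2 := fact_a_le htσ0 htσ hr h1 h2
    have f3 : b ≤ L := fact_b_le htσ0 htσ hr h1 h2 hsmall hN0
    have hsq := hasSum_update_two (F := fun x => x ^ 2) h0.hasSum hNi.symm a b
    refine ⟨hsq.summable, ?_, ?_, ?_, Or.inl ?_⟩
    · exact update_two_prop (fun x => 0 ≤ x ∧ x ≤ M) σ hM ⟨ha, by linarith⟩ ⟨hb, by linarith⟩
    · rw [hsq.tsum_eq]; nlinarith [sq_nonneg δ]
    · rw [hsq.tsum_eq]; nlinarith [sq_nonneg (t * σ i)]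
    · exact update_two_prop (fun x => x ≤ L) σ (fun k => (hmax' k).trans hsmall) (by linarith) f3
  · push Not at hsmall
    obtain ⟨j, hjL, hpot⟩ := hP.resolve_left fun h => absurd (h i) (not_le.mpr hsmall)
    have hij : i ≠ j := by
      rintro rfl
      linarith
    set c := max (t * σ i) δ with hcdef
    have hc : 0 ≤ c := le_max_of_le_right hδ
    have hcσ : c ≤ σ i := max_le htσ (by linarith)
    have hcδ : δ ≤ c := le_max_right _ _
    have hc2 : c ^ 2 ≤ t ^ 2 * M ^ 2 + δ ^ 2 := by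
      rcases max_choice (t * σ i) δ with h | h
      · rw [hcdef, h]; nlinarith [sq_nonneg δ]
      · rw [hcdef, h]; nlinarith [sq_nonneg (t * σ i)]
    refine ⟨i, j, c, hij, hc, hcσ, hmax', le_max_left _ _, ?_⟩
    intro a b ha hb h1 h2
    have hr : 0 ≤ σ j := (hM j).1
    have f1 := fact_energy h1 h2
    have f2 := fact_a_le hc hcσ hr h1 h2
    have f3 : b ≤ M := fact_b_le hc hcσ hr h1 h2 (hM i).2 (by linarith)
    have f4 := fact_gain hL hc hcσ hr ha hb h1 h2 hsmall hjL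
    have hsq := hasSum_update_two (F := fun x => x ^ 2) h0.hasSum hij a b
    have hps := (hasSum_update_two (F := psi L) (summable_psi h0 L).hasSum hij a b).tsum_eq
    rw [psi_of_lt hsmall, psi_of_le (show σ j ≤ L by linarith)] at hps
    have hpa := psi_le L a
    have hLδ : L * δ ≤ L * c := mul_le_mul_of_nonneg_left hcδ hL.le
    refine ⟨hsq.summable, ?_, ?_, ?_, Or.inr ?_⟩
    · exact update_two_prop (fun x => 0 ≤ x ∧ x ≤ M) σ hM ⟨ha, f2.trans (hM i).2⟩ ⟨hb, f3⟩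
    · rw [hsq.tsum_eq]; linarith
    · rw [hsq.tsum_eq]; nlinarith [sq_nonneg c]
    · by_cases hb3 : b ≤ L / 3
      · refine ⟨j, by rw [update_self]; exact hb3, ?_⟩
        rw [hps, update_self, psi_of_le (show b ≤ L by linarith)]
        nlinarith
      · push Not at hb3
        obtain ⟨k, hki, hkj, hk⟩ := exists_fresh h0 (show 0 < L / 3 by linarith) i j
        have hz : update (update σ i a) j b k = σ k := by
          rw [update_of_ne hkj, update_of_ne hki]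
        have hk2 : σ k ^ 2 - L / 3 * σ k ≤ 0 := by nlinarith [(hM k).1]
        refine ⟨k, by rw [hz]; exact hk, ?_⟩
        rw [hps, hz]
        generalize σ k ^ 2 = w1 at hk2 ⊢
        generalize L / 3 * σ k = w2 at hk2 ⊢
        by_cases hbL : b ≤ L
        · rw [psi_of_le hbL]
          nlinarith
        · push Not at hbL
          rw [psi_of_lt hbL]
          have hc23 : 2 * L / 3 ≤ c := by linarith
          nlinarith

lemma InvI.start {σ : ℕ → ℝ} {M L E : ℝ} (h0 : Summable fun i => σ i ^ 2)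
    (hM : ∀ i, 0 ≤ σ i ∧ σ i ≤ M) (hE : E ≤ ∑' i, σ i ^ 2) (hE1 : ∑' i, σ i ^ 2 ≤ 1)
    (hL : 0 < L) : InvI σ M L 1 E := by
  obtain ⟨k, -, -, hk⟩ := exists_fresh h0 (show 0 < L / 3 by linarith) 0 0
  refine ⟨h0, hM, hE, hE1, Or.inr ⟨k, hk, ?_⟩⟩
  have h1 : ∑' i, psi L (σ i) ≤ ∑' i, σ i ^ 2 :=
    (summable_psi h0 L).tsum_le_tsum (fun _ => psi_le _ _) h0
  nlinarith [(hM k).1]

lemma InvI.transition {σ : ℕ → ℝ} {M L P E : ℝ} (h : InvI σ M L P E) (hL : 0 < L)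
    (hP : P ≤ 0) {L' : ℝ} (hL' : 0 < L') : InvI σ L L' 1 E := by
  obtain ⟨h0, hM, hE, hE1, hpot⟩ := h
  have hall : ∀ i, σ i ≤ L := by
    rcases hpot with h | ⟨j, hjL, hpot⟩
    · exact h
    · intro i
      by_contra hi
      push Not at hi
      have h1 : psi L (σ i) ≤ ∑' k, psi L (σ k) :=
        (summable_psi h0 L).le_tsum i fun k _ => psi_nonneg _ _
      rw [psi_of_lt hi] at h1
      nlinarith [sq_nonneg (σ j - L / 6)]
  exact InvI.start h0 (fun i => ⟨(hM i).1, hall i⟩) hE hE1 hL'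

lemma InvI.mono {σ : ℕ → ℝ} {M L P E P' E' : ℝ} (h : InvI σ M L P E) (hP : P ≤ P')
    (hE : E' ≤ E) : InvI σ M L P' E' := by
  obtain ⟨h0, hM, hE0, hE1, hpot⟩ := h
  refine ⟨h0, hM, hE.trans hE0, hE1, hpot.imp id ?_⟩
  rintro ⟨j, hjL, h⟩
  exact ⟨j, hjL, h.trans hP⟩

end Pool.Agent.Lib.MP_8ec86e_an
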