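import Pool.Agent.Lib.MP_8ec86e_an.Defs

/-!
Stages of a flattening that starts from an arbitrary residual.
-/

open Finset Filter Topology

namespace Pool.Agent.Lib.MP_8ec86e_an

/-- A starting point in the first half of a block from which all forward means are small. -/
lemma exists_rising (x : ℕ → ℝ) (hx : ∀ k, 0 ≤ x k) {a b : ℕ} (hab : a ≤ b) {μ : ℝ} (hμ : 0 < μ)
    (h : ∑ k ∈ Ioc a b, x k ≤ μ * ((b : ℝ) - a)) :
    ∃ m : ℕ, a ≤ m ∧ m ≤ b ∧ 2 * ((m : ℝ) - a) ≤ (b : ℝ) - a ∧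
      ∀ n, m ≤ n → n ≤ b → ∑ k ∈ Ioc m n, x k ≤ 2 * μ * ((n : ℝ) - m) := by
  obtain ⟨m, hm, hmax⟩ := exists_max_image (Icc a b)
    (fun n => ∑ k ∈ Ioc a n, x k - 2 * μ * (n : ℝ)) ⟨a, mem_Icc.mpr ⟨le_rfl, hab⟩⟩
  obtain ⟨h1, h2⟩ := mem_Icc.mp hm
  refine ⟨m, h1, h2, ?_, fun n hn hnb => ?_⟩
  · have h3 := hmax a (mem_Icc.mpr ⟨le_rfl, hab⟩)
    have h4 : ∑ k ∈ Ioc a m, x k ≤ ∑ k ∈ Ioc a b, x k :=
      sum_le_sum_of_subset_of_nonneg (Ioc_subset_Ioc_right h2) fun k _ _ => hx k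
    simp only [Ioc_self, sum_empty] at h3
    refine le_of_mul_le_mul_left ?_ hμ
    linarith
  · have h3 := hmax n (mem_Icc.mpr ⟨h1.trans hn, hnb⟩)
    have h4 := sum_Ioc_consecutive x h1 hn
    linarith

lemma frequently_small (η : ℕ → ℝ) (hη : Summable η) {ε : ℝ} (hε : 0 < ε) :
    ∃ᶠ b : ℕ in atTop, η b * ((b : ℝ) + 1) ≤ ε := by
  by_contra hcon
  rw [not_frequently] at hcon
  have h1 : Summable fun b : ℕ => 1 / ((b : ℝ) + 1) := by
    refine Summable.of_norm_bounded_eventually_nat (hη.mul_left ε⁻¹) ?_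
    filter_upwards [hcon] with b hb
    have hb0 : (0 : ℝ) < (b : ℝ) + 1 := by positivity
    rw [Real.norm_of_nonneg (by positivity), div_le_iff₀ hb0, mul_assoc, ← div_eq_inv_mul,
      le_div_iff₀ hε]
    linarith [not_le.mp hb]
  refine Real.not_summable_one_div_natCast ((summable_nat_add_iff 1).mp ?_)
  simpa using h1

/-- Stages with levels `2 ^ (-s / 2)`, the first one at level one. -/
lemma exists_restart (t : ℕ → ℝ) (hV : InV t) :
    ∃ p : ℕ → ℕ, (∀ s, p s < p (s + 1)) ∧ ∀ S, ∑ s ∈ range S,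
      (((2 : ℝ) ^ s)⁻¹ * ∑ k ∈ Ioc (p s) (p (s + 1)), t k ^ 2
        + 50 * (2 ^ s / ((p (s + 1) : ℝ) - p s))) ≤ 1 / 2 := by
  obtain ⟨-, q, hq0, hq, hA, hB⟩ := hV
  set A : ℕ → ℝ := fun s => (2 : ℝ) ^ (s + 1) / ((q (s + 1) : ℝ) - (q s : ℝ)) with hAdef
  set B : ℕ → ℝ := fun s => ((2 : ℝ) ^ (s + 1))⁻¹ * ∑ k ∈ Finset.Icc 1 (q (s + 1)), t k ^ 2
    with hBdef
  have hqd : ∀ s, (0 : ℝ) < (q (s + 1) : ℝ) - q s := by
    intro s
    have : (q s : ℝ) < q (s + 1) := by exact_mod_cast hq (Nat.lt_succ_self s)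
    linarith
  have hA0 : ∀ s, 0 < A s := fun s => div_pos (by positivity) (hqd s)
  have hB0 : ∀ s, 0 ≤ B s := fun s =>
    mul_nonneg (by positivity) (sum_nonneg fun k _ => sq_nonneg _)
  have hBle : ∀ s a, ((2 : ℝ) ^ (s + 1))⁻¹ * ∑ k ∈ Ioc a (q (s + 1)), t k ^ 2 ≤ B s := by
    intro s a
    refine mul_le_mul_of_nonneg_left (sum_le_sum_of_subset_of_nonneg ?_ fun k _ _ => sq_nonneg _)
      (by positivity)
    intro k hk
    rw [mem_Ioc] at hk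
    exact mem_Icc.mpr ⟨by omega, hk.2⟩
  have hC : Summable fun s => B s + 50 * A s := hB.add (hA.mul_left 50)
  have hC0 : ∀ s, 0 ≤ B s + 50 * A s := fun s => by linarith [hA0 s, hB0 s]
  have hev : ∀ᶠ b : ℕ in atTop, ∑' s, (B (s + (b + 1)) + 50 * A (s + (b + 1))) ≤ 1 / 4 :=
    ((tendsto_sum_nat_add fun s => B s + 50 * A s).comp (tendsto_add_atTop_nat 1)).eventually
      (eventually_le_nhds (show (0 : ℝ) < 1 / 4 by norm_num))
  obtain ⟨b, hb1, hb2⟩ := ((frequently_small (fun s => A s + B s) (hA.add hB)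
    (show (0 : ℝ) < 1 / 4000 by norm_num)).and_eventually hev).exists
  have hC' : Summable fun s => B (s + (b + 1)) + 50 * A (s + (b + 1)) :=
    (summable_nat_add_iff (f := fun s => B s + 50 * A s) (b + 1)).mpr hC
  have htail : ∀ S, ∑ s ∈ range S, (B (s + (b + 1)) + 50 * A (s + (b + 1))) ≤ 1 / 4 := fun S =>
    (hC'.sum_le_tsum _ fun s _ => hC0 _).trans hb2
  set η : ℝ := A b + B b with hη
  have hη0 : 0 < η := by linarith [hA0 b, hB0 b]
  have hAη : A b ≤ η := by linarith [hB0 b]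
  have hBη : B b ≤ η := by linarith [hA0 b]
  have hb0 : (0 : ℝ) ≤ b := Nat.cast_nonneg b
  have hη1 : η ≤ 1 / 4000 := by nlinarith
  have hAΔ : A b * ((q (b + 1) : ℝ) - q b) = 2 ^ (b + 1) := div_mul_cancel₀ _ (hqd b).ne'
  obtain ⟨m, hm1, hm2, hm3, hm4⟩ := exists_rising (fun k => t k ^ 2) (fun k => sq_nonneg _)
    (hq (Nat.lt_succ_self b)).le (mul_pos hη0 (hA0 b)) (by
      have h1 := (hBle b (q b)).trans hBη
      rw [inv_mul_le_iff₀ (by positivity)] at h1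
      rw [mul_assoc, hAΔ]
      linarith)
  obtain ⟨ν, hνr⟩ : ∃ ν : ℕ, (ν : ℝ) = 1000 * ((b : ℝ) + 1) :=
    ⟨1000 * (b + 1), by push_cast; ring⟩
  have hν0 : (0 : ℝ) < ν := by rw [hνr]; positivity
  have hνη : (ν : ℝ) * η ≤ 1 / 4 := by rw [hνr]; linarith
  have hfit : (ν : ℝ) * 2 ^ (b + 1) ≤ ((q (b + 1) : ℝ) - q b) / 4 := by
    rw [← hAΔ, ← mul_assoc]
    have h1 : (ν : ℝ) * A b ≤ 1 / 4 := (mul_le_mul_of_nonneg_left hAη hν0.le).trans hνη
    nlinarith [hqd b]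
  set p : ℕ → ℕ := fun j => if j ≤ b + 1 then m + ν * (2 ^ j - 1) else q (j - 1) with hp
  have hp1 : ∀ j, j ≤ b + 1 → (p j : ℝ) = m + ν * (2 ^ j - 1) := by
    intro j hj
    simp only [hp, if_pos hj]
    push_cast [Nat.cast_sub (Nat.one_le_two_pow (n := j))]
    ring
  have hp2 : ∀ j, b + 1 ≤ j → p (j + 1) = q j := by
    intro j hj
    simp only [hp, if_neg (show ¬j + 1 ≤ b + 1 by omega), Nat.add_sub_cancel]
  have hp3 : ∀ j, j ≤ b + 1 → m ≤ p j := by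
    intro j hj
    simp only [hp, if_pos hj]
    omega
  have hp4 : ∀ j, j ≤ b + 1 → ((q (b + 1) : ℝ) - q b) / 4 ≤ (q (b + 1) : ℝ) - p j := by
    intro j hj
    rw [hp1 j hj]
    have h1 : (2 : ℝ) ^ j ≤ 2 ^ (b + 1) := pow_le_pow_right₀ (by norm_num) hj
    nlinarith
  have hp5 : ∀ j, j ≤ b → (p (j + 1) : ℝ) - p j = ν * 2 ^ j := by
    intro j hj
    rw [hp1 j (by omega), hp1 (j + 1) (by omega)]
    ring
  have hlt : ∀ s, p s < p (s + 1) := by
    intro s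
    rcases lt_trichotomy s (b + 1) with h | h | h
    · have h1 := hp5 s (by omega)
      have h2 : (0 : ℝ) < ν * 2 ^ s := by positivity
      have : (p s : ℝ) < p (s + 1) := by linarith
      exact_mod_cast this
    · have h1 := hp4 s h.le
      rw [hp2 s h.ge, h]
      rw [h] at h1
      have : (p (b + 1) : ℝ) < q (b + 1) := by linarith [hqd b]
      exact_mod_cast this
    · obtain ⟨s, rfl⟩ : ∃ s', s = s' + 1 := ⟨s - 1, by omega⟩
      rw [hp2 s (by omega), hp2 (s + 1) (by omega)]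
      exact hq (Nat.lt_succ_self s)
  refine ⟨p, hlt, fun S => ?_⟩
  set c : ℕ → ℝ := fun s => ((2 : ℝ) ^ s)⁻¹ * ∑ k ∈ Ioc (p s) (p (s + 1)), t k ^ 2
        + 50 * (2 ^ s / ((p (s + 1) : ℝ) - p s)) with hc
  have hc0 : ∀ s, 0 ≤ c s := by
    intro s
    have h1 : (p s : ℝ) < p (s + 1) := by exact_mod_cast hlt s
    have h2 : (0 : ℝ) ≤ 2 ^ s / ((p (s + 1) : ℝ) - p s) := div_nonneg (by positivity) (by linarith)
    have h3 : 0 ≤ ∑ k ∈ Ioc (p s) (p (s + 1)), t k ^ 2 := sum_nonneg fun k _ => sq_nonneg _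
    positivity
  have hc1 : ∀ j ∈ range (b + 1), c j ≤ 4 * (η * η) * ν + 50 / ν := by
    intro j hj
    have hj' : j ≤ b := by have := mem_range.mp hj; omega
    have h1 : p (j + 1) ≤ q (b + 1) := by
      have h2 := hp4 (j + 1) (by omega)
      have : (p (j + 1) : ℝ) ≤ q (b + 1) := by linarith [hqd b]
      exact_mod_cast this
    have h2 := hm4 (p (j + 1)) (hp3 _ (by omega)) h1
    have h3 : ∑ k ∈ Ioc (p j) (p (j + 1)), t k ^ 2 ≤ ∑ k ∈ Ioc m (p (j + 1)), t k ^ 2 :=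
      sum_le_sum_of_subset_of_nonneg (Ioc_subset_Ioc_left (hp3 _ (by omega)))
        fun k _ _ => sq_nonneg _
    have h4 : (p (j + 1) : ℝ) - m ≤ ν * (2 * 2 ^ j) := by
      rw [hp1 _ (by omega), pow_succ]
      linarith
    have h5 : 2 * (η * A b) * ((p (j + 1) : ℝ) - m) ≤ 2 * (η * η) * (ν * (2 * 2 ^ j)) := by
      have h6 : (m : ℝ) ≤ p (j + 1) := by exact_mod_cast hp3 (j + 1) (by omega)
      refine mul_le_mul (by nlinarith) h4 (by linarith) (by positivity)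
    have h7 : ((2 : ℝ) ^ j)⁻¹ * ∑ k ∈ Ioc (p j) (p (j + 1)), t k ^ 2 ≤ 4 * (η * η) * ν := by
      rw [inv_mul_le_iff₀ (by positivity)]
      linarith
    have h8 : (50 : ℝ) * (2 ^ j / ((p (j + 1) : ℝ) - p j)) = 50 / ν := by
      rw [hp5 j hj']
      field_simp
    simp only [hc]
    linarith
  have hc2 : c (b + 1) ≤ 1 / 20 := by
    have h1 := hBle b (p (b + 1))
    have h2 := hp4 (b + 1) le_rfl
    have h3 : (2 : ℝ) ^ (b + 1) / ((q (b + 1) : ℝ) - p (b + 1)) ≤ 4 * A b := by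
      rw [div_le_iff₀ (by linarith [hqd b]), ← hAΔ]
      nlinarith [hA0 b]
    simp only [hc]
    rw [hp2 (b + 1) le_rfl]
    linarith [hA0 b, hB0 b]
  have hc3 : ∀ i, c (b + 1 + 1 + i) ≤ B (i + (b + 1)) + 50 * A (i + (b + 1)) := by
    intro i
    have e : b + 1 + 1 + i = i + (b + 1) + 1 := by omega
    simp only [hc]
    rw [e, hp2 (i + (b + 1) + 1) (by omega), hp2 (i + (b + 1)) (by omega)]
    have := hBle (i + (b + 1)) (q (i + (b + 1)))
    simp only [hAdef]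
    linarith
  have h1 : ∑ s ∈ range S, c s ≤ ∑ s ∈ range (b + 1 + 1 + S), c s :=
    sum_le_sum_of_subset_of_nonneg (range_subset_range.mpr (by omega)) fun k _ _ => hc0 k
  rw [sum_range_add, sum_range_succ] at h1
  have h2 := sum_le_card_nsmul _ _ _ hc1
  rw [card_range, nsmul_eq_mul] at h2
  have h3 := (sum_le_sum fun i (_ : i ∈ range S) => hc3 i).trans (htail S)
  have h4 : ((b + 1 : ℕ) : ℝ) * (4 * (η * η) * ν + 50 / ν) ≤ 1 / 10 := by
    have e : ((b + 1 : ℕ) : ℝ) * (4 * (η * η) * ν + 50 / ν)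
        = 4000 * (η * ((b : ℝ) + 1)) ^ 2 + 1 / 20 := by
      rw [hνr]
      push_cast
      field_simp
      ring
    have h5 : 0 ≤ η * ((b : ℝ) + 1) := by positivity
    rw [e]
    nlinarith
  linarith

/-- The parameters of the stages, the first level being one. -/
lemma exists_stages_one (t : ℕ → ℝ) (hV : InV t) :
    ∃ (p : ℕ → ℕ) (l δ cost : ℕ → ℝ), l 0 = 1 ∧ (∀ s, p s < p (s + 1)) ∧
      (∀ s, 0 < l s) ∧ (∀ s, l (s + 1) ≤ l s) ∧ (∀ s, 0 ≤ δ s) ∧ (∀ s, δ s ≤ l (s + 1)) ∧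
      (∀ s, l (s + 1) * δ s * ((p (s + 1) : ℝ) - p s) = 5) ∧
      (∀ S, ∑ s ∈ range S, cost s ≤ 1 / 2) ∧
      (∀ s n, p s ≤ n → n ≤ p (s + 1) →
        l s ^ 2 * ∑ k ∈ Ioc (p s) n, t k ^ 2 + δ s ^ 2 * ((n : ℝ) - p s) ≤ cost s) := by
  obtain ⟨p, hp, hsum⟩ := exists_restart t hV
  set l : ℕ → ℝ := fun s => √(((2 : ℝ) ^ s)⁻¹) with hl
  have hl0 : ∀ s, 0 < l s := fun s => Real.sqrt_pos.mpr (by positivity)
  have hl2 : ∀ s, l s ^ 2 = ((2 : ℝ) ^ s)⁻¹ := fun s => Real.sq_sqrt (by positivity)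
  have hd : ∀ s, (0 : ℝ) < (p (s + 1) : ℝ) - p s := fun s => by
    have : (p s : ℝ) < p (s + 1) := by exact_mod_cast hp s
    linarith
  have hT : ∀ s, 0 ≤ ((2 : ℝ) ^ s)⁻¹ * ∑ k ∈ Ioc (p s) (p (s + 1)), t k ^ 2 := fun s =>
    mul_nonneg (by positivity) (sum_nonneg fun k _ => sq_nonneg _)
  have hU : ∀ s, (0 : ℝ) ≤ 50 * (2 ^ s / ((p (s + 1) : ℝ) - p s)) := fun s =>
    mul_nonneg (by norm_num) (div_nonneg (by positivity) (hd s).le)
  refine ⟨p, l, fun s => 5 / (l (s + 1) * ((p (s + 1) : ℝ) - p s)), _, by simp [hl], hp, hl0,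
    fun s => Real.sqrt_le_sqrt ?_, fun s => (div_pos (by norm_num) (mul_pos (hl0 _) (hd s))).le,
    fun s => ?_, fun s => ?_, hsum, fun s n h1 h2 => ?_⟩
  · exact inv_anti₀ (by positivity) (pow_le_pow_right₀ (by norm_num) (Nat.le_succ s))
  · have h1 := (single_le_sum (f := fun s => ((2 : ℝ) ^ s)⁻¹ * ∑ k ∈ Ioc (p s) (p (s + 1)), t k ^ 2
        + 50 * (2 ^ s / ((p (s + 1) : ℝ) - p s))) (fun s _ => add_nonneg (hT s) (hU s))
      (self_mem_range_succ s)).trans (hsum (s + 1))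
    have h2 : (2 : ℝ) ^ s / ((p (s + 1) : ℝ) - p s) ≤ 1 / 100 := by linarith [hT s]
    rw [div_le_iff₀ (hd s)] at h2
    rw [div_le_iff₀ (mul_pos (hl0 _) (hd s)), ← mul_assoc, ← sq, hl2, ← div_eq_inv_mul,
      le_div_iff₀ (by positivity), pow_succ]
    linarith [hd s]
  · have := (hl0 (s + 1)).ne'
    have := (hd s).ne'
    field_simp
  · have e1 : l s ^ 2 * ∑ k ∈ Ioc (p s) n, t k ^ 2
        ≤ ((2 : ℝ) ^ s)⁻¹ * ∑ k ∈ Ioc (p s) (p (s + 1)), t k ^ 2 := by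
      rw [hl2]
      exact mul_le_mul_of_nonneg_left (sum_le_sum_of_subset_of_nonneg (Ioc_subset_Ioc_right h2)
        fun k _ _ => sq_nonneg _) (by positivity)
    have h5 : (n : ℝ) - p s ≤ (p (s + 1) : ℝ) - p s := by
      have : (n : ℝ) ≤ p (s + 1) := by exact_mod_cast h2
      linarith
    have e2 : (5 / (l (s + 1) * ((p (s + 1) : ℝ) - p s))) ^ 2 * ((p (s + 1) : ℝ) - p s)
        = 50 * (2 ^ s / ((p (s + 1) : ℝ) - p s)) := by
      have := (hd s).ne'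
      rw [div_pow, mul_pow, hl2, pow_succ]
      field_simp
      ring
    have e3 := mul_le_mul_of_nonneg_left h5
      (sq_nonneg (5 / (l (s + 1) * ((p (s + 1) : ℝ) - p s))))
    linarith

end Pool.Agent.Lib.MP_8ec86e_an
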