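import Pool.Agent.Lib.MP_8ec86e_an.PRep
import Pool.Agent.Lib.MP_8ec86e_an.PGame
import Pool.Agent.Lib.MP_8ec86e_an.PStage

/-!
For `t ∈ 𝒱` either all realizations stop at zero or one of them stays away from zero.
-/

open Finset Function Filter Topology

namespace Pool.Agent.Lib.MP_8ec86e_an

variable {U H : Type*} [NormedAddCommGroup U] [InnerProductSpace ℝ U]
  [NormedAddCommGroup H] [InnerProductSpace ℝ H]

/-- The number of full steps up to time `m`. -/
noncomputable def cnt (t : ℕ → ℝ) (m : ℕ) : ℕ := ((Icc 1 m).filter fun k => t k = 1).card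

lemma cnt_succ (t : ℕ → ℝ) (m : ℕ) :
    cnt t (m + 1) = cnt t m + if t (m + 1) = 1 then 1 else 0 := by
  unfold cnt
  rw [card_filter, card_filter, sum_Icc_succ_top (by omega)]

lemma exists_real (D : Set H) (t : ℕ → ℝ) (Good : ℕ → H → Prop)
    (hstep : ∀ n f, Good n f → ∃ φ, φ ∈ D ∧
      t (n + 1) * sSup ((fun g => |inner ℝ f g|) '' D) ≤ |inner ℝ f φ| ∧
      Good (n + 1) (f - (inner ℝ f φ) • φ)) (f0 : H) (hf0 : Good 0 f0) :
    ∃ φ r : ℕ → H, r 0 = f0 ∧ (∀ m : ℕ, φ (m + 1) ∈ D ∧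
      t (m + 1) * sSup ((fun g => |inner ℝ (r m) g|) '' D) ≤ |inner ℝ (r m) (φ (m + 1))| ∧
      r (m + 1) = r m - (inner ℝ (r m) (φ (m + 1))) • φ (m + 1)) ∧ ∀ m, Good m (r m) := by
  choose! Φ hΦ using hstep
  let r : ℕ → H := fun n => Nat.rec f0 (fun m g => g - (inner ℝ g (Φ m g)) • Φ m g) n
  have hgood : ∀ n, Good n (r n) := by
    intro n
    induction n with
    | zero => exact hf0
    | succ n ih => exact (hΦ n (r n) ih).2.2
  refine ⟨fun n => Φ (n - 1) (r (n - 1)), r, rfl, fun m => ?_, hgood⟩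
  simp only [Nat.add_sub_cancel]
  exact ⟨(hΦ m (r m) (hgood m)).1, (hΦ m (r m) (hgood m)).2.1, rfl⟩

variable {T : U →ₗ[ℝ] U →ₗ[ℝ] H}

lemma RepI.step' (hT : ∀ u v u' v', inner ℝ (T u v) (T u' v') = inner ℝ u u' * inner ℝ v v')
    {D : Set H} (hD : ∀ g, g ∈ D ↔ ∃ x y : U, ‖x‖ = 1 ∧ ‖y‖ = 1 ∧ g = T x y)
    {f : H} {σ : ℕ → ℝ} (h : RepI T f σ) (hpos : ∀ k, 0 ≤ σ k) {i j : ℕ} (hij : i ≠ j)
    (hmax : ∀ k, σ k ≤ σ i) {c τ κ : ℝ} (hc : 0 ≤ c) (hcσ : c ≤ σ i) (hτ : 0 ≤ τ)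
    (htc : τ * σ i ≤ c) (hκ : 0 ≤ κ) :
    ∃ φ, φ ∈ D ∧ τ * sSup ((fun g => |inner ℝ (κ • f) g|) '' D) ≤ |inner ℝ (κ • f) φ| ∧
      ∃ (a b : ℝ) (f' : H), 0 ≤ a ∧ 0 ≤ b ∧ a * b = (σ i - c) * (σ j + c) ∧
        a - b = σ i - c - σ j ∧ RepI T f' (update (update σ i a) j b) ∧
        κ • f - (inner ℝ (κ • f) φ) • φ = κ • f' := by
  obtain ⟨x, y, hx, hy, hin, a, b, ha, hb, hab1, hab2, hrep⟩ := h.step hT hij hc hcσ (hpos j)
  refine ⟨T x y, (hD _).mpr ⟨x, y, hx, hy, rfl⟩, ?_, a, b, _, ha, hb, hab1, hab2, hrep, ?_⟩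
  · rw [real_inner_smul_left, hin, abs_of_nonneg (mul_nonneg hκ hc)]
    have h1 : sSup ((fun g => |inner ℝ (κ • f) g|) '' D) ≤ κ * σ i := by
      apply Real.sSup_le _ (mul_nonneg hκ (hpos i))
      rintro _ ⟨g, hg, rfl⟩
      obtain ⟨x', y', hx', hy', rfl⟩ := (hD g).mp hg
      beta_reduce
      rw [real_inner_smul_left, abs_mul, abs_of_nonneg hκ]
      exact mul_le_mul_of_nonneg_left
        (h.bound hT (hpos i) (fun k => ⟨hpos k, hmax k⟩) hx' hy') hκ
    nlinarith [mul_le_mul_of_nonneg_left h1 hτ, mul_le_mul_of_nonneg_left htc hκ]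
  · rw [real_inner_smul_left, hin, smul_sub, mul_smul]

lemma RepI.finite_sum {f : H} {σ : ℕ → ℝ} (h : RepI T f σ) (S : Finset ℕ)
    (hS : ∀ k, k ∉ S → σ k = 0) :
    ∃ (c : Fin S.card → ℝ) (x y : Fin S.card → U), (∀ i, ‖x i‖ = 1 ∧ ‖y i‖ = 1) ∧
      f = ∑ i, c i • T (x i) (y i) := by
  obtain ⟨u, v, hu, hv, hf⟩ := h
  refine ⟨fun i => σ (S.equivFin.symm i), fun i => u (S.equivFin.symm i),
    fun i => v (S.equivFin.symm i), fun i => ⟨hu.1 _, hv.1 _⟩, ?_⟩
  rw [Equiv.sum_comp S.equivFin.symm fun k : S => σ k • T (u k) (v k),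
    sum_coe_sort S fun k => σ k • T (u k) (v k)]
  refine tendsto_nhds_unique hf (tendsto_const_nhds.congr' ?_)
  filter_upwards [eventually_gt_atTop (S.sup id)] with N hN
  refine sum_subset (fun k hk => mem_range.mpr ((le_sup (f := id) hk).trans_lt hN))
    fun k _ hk => ?_
  rw [hS k hk, zero_smul]

/-- A realization that never reaches zero. -/
lemma exists_nonzero_real [CompleteSpace U]
    (hT : ∀ u v u' v', inner ℝ (T u v) (T u' v') = inner ℝ u u' * inner ℝ v v')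
    (e : ℕ → U) (he : Orthonormal ℝ e)
    (D : Set H) (hD : ∀ g, g ∈ D ↔ ∃ x y : U, ‖x‖ = 1 ∧ ‖y‖ = 1 ∧ g = T x y)
    (hdense : Dense (Submodule.span ℝ D : Set H))
    (t : ℕ → ℝ) (ht : ∀ k, 1 ≤ k → 0 ≤ t k ∧ t k ≤ 1) (f : H)
    (hf : ∀ (n m : ℕ) (c : Fin n → ℝ) (g : Fin n → H), (∀ i, g i ∈ D) → f = ∑ i, c i • g i →
      2 * cnt t m < n + m) :
    ∃ φ r : ℕ → H, r 0 = f ∧ (∀ m : ℕ, φ (m + 1) ∈ D ∧
      t (m + 1) * sSup ((fun g => |inner ℝ (r m) g|) '' D) ≤ |inner ℝ (r m) (φ (m + 1))| ∧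
      r (m + 1) = r m - (inner ℝ (r m) (φ (m + 1))) • φ (m + 1)) ∧ ∀ m, r m ≠ 0 := by
  obtain ⟨σ0, hσ0, hrep0⟩ := exists_repI hT e he D hD hdense f
  have hρ : ∀ m : ℕ, 2 * (cnt t m : ℕ∞) < (support σ0).encard + m := by
    intro m
    by_cases hfin : (support σ0).Finite
    · obtain ⟨c, x, y, hxy, hsum⟩ := hrep0.finite_sum hfin.toFinset fun k hk => by
        simpa using hk
      have h1 := hf _ m c (fun i => T (x i) (y i))
        (fun i => (hD _).mpr ⟨_, _, (hxy i).1, (hxy i).2, rfl⟩) hsum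
      rw [hfin.encard_eq_coe_toFinset_card]
      exact_mod_cast h1
    · rw [Set.Infinite.encard_eq hfin, top_add]
      exact_mod_cast ENat.natCast_lt_top (2 * cnt t m)
  let Good : ℕ → H → Prop := fun n g => ∃ σ : ℕ → ℝ, (∀ k, 0 ≤ σ k) ∧ RepI T g σ ∧
    (support σ0).encard + n ≤ (support σ).encard + 2 * (cnt t n : ℕ∞)
  have hne : ∀ (n : ℕ) (σ : ℕ → ℝ),
      (support σ0).encard + n ≤ (support σ).encard + 2 * (cnt t n : ℕ∞) → ∃ k, σ k ≠ 0 := by
    intro n σ h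
    by_contra hcon
    push Not at hcon
    have : support σ = ∅ := support_eq_empty_iff.mpr (funext hcon)
    rw [this, Set.encard_empty, zero_add] at h
    exact absurd (hρ n) (not_lt.mpr h)
  obtain ⟨φ, r, h0, hr, hgood⟩ := exists_real D t Good (by
    rintro n g ⟨σ, hpos, hrep, hinv⟩
    obtain ⟨ht0, ht1⟩ := ht (n + 1) (by omega)
    obtain ⟨i, hmax⟩ := exists_top (hrep.hasSum hT).summable hpos
    have hi : 0 < σ i := by
      obtain ⟨k, hk⟩ := hne n σ hinv
      exact (lt_of_le_of_ne (hpos k) hk.symm).trans_le (hmax k)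
    obtain ⟨j, hij, hj⟩ : ∃ j, i ≠ j ∧
        (support σ).encard + 1 ≤ (insert j (support σ)).encard := by
      by_cases hall : ∀ k, σ k ≠ 0
      · refine ⟨i + 1, by omega, ?_⟩
        have : support σ = Set.univ := Set.eq_univ_of_forall hall
        rw [this, Set.insert_eq_of_mem (Set.mem_univ _), Set.infinite_univ.encard_eq]
        exact le_top
      · push Not at hall
        obtain ⟨j, hj⟩ := hall
        refine ⟨j, fun h => hi.ne' (h ▸ hj), ?_⟩
        rw [Set.encard_insert_of_notMem (by simpa using hj)]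
    set c := (1 + t (n + 1)) / 2 * σ i with hc
    have hc0 : 0 < c := by positivity
    have hcσ : c ≤ σ i := by nlinarith
    obtain ⟨φ, hφ, hs, a, b, g', ha, hb, h1, h2, hrep', hg'⟩ := hrep.step' hT hD hpos hij hmax
      hc0.le hcσ ht0 (by nlinarith) zero_le_one
    rw [one_smul] at hs hg'
    rw [one_smul] at hg'
    refine ⟨φ, hφ, hs, update (update σ i a) j b, update_two_prop (fun x => 0 ≤ x) σ hpos ha hb,
      hg' ▸ hrep', ?_⟩
    rw [cnt_succ]
    split_ifs with h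
    · have h3 : (support σ).encard ≤ (support (update (update σ i a) j b)).encard + 1 := by
        refine (Set.encard_le_encard fun k hk => ?_).trans (Set.encard_insert_le _ i)
        by_cases hki : k = i
        · exact Or.inl hki
        · refine Or.inr ?_
          by_cases hkj : k = j
          · have h4 := fact_le_b hc0.le ha hb h1 h2
            rw [mem_support, hkj, update_self]
            exact ((lt_of_le_of_ne (hpos j) (hkj ▸ hk : σ j ≠ 0).symm).trans_le h4).ne'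
          · rw [mem_support, update_of_ne hkj, update_of_ne hki]
            exact hk
      calc (support σ0).encard + ((n + 1 : ℕ) : ℕ∞) = (support σ0).encard + n + 1 := by
            push_cast; ring
        _ ≤ (support σ).encard + 2 * (cnt t n : ℕ∞) + 1 := by gcongr
        _ ≤ (support (update (update σ i a) j b)).encard + 1 + 2 * (cnt t n : ℕ∞) + 1 := by
            gcongr
        _ = _ := by push_cast; ring
    · have hlt : c < σ i := by
        have := lt_of_le_of_ne ht1 h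
        nlinarith
      have hab : 0 < a * b := by
        rw [h1]
        exact mul_pos (by linarith) (by linarith [hpos j])
      have h3 : (insert j (support σ)).encard ≤ (support (update (update σ i a) j b)).encard := by
        refine Set.encard_le_encard fun k hk => ?_
        by_cases hkj : k = j
        · rw [mem_support, hkj, update_self]
          exact right_ne_zero_of_mul hab.ne'
        · rw [mem_support, update_of_ne hkj]
          by_cases hki : k = i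
          · rw [hki, update_self]
            exact left_ne_zero_of_mul hab.ne'
          · rw [update_of_ne hki]
            exact hk.resolve_left hkj
      calc (support σ0).encard + ((n + 1 : ℕ) : ℕ∞) = (support σ0).encard + n + 1 := by
            push_cast; ring
        _ ≤ (support σ).encard + 2 * (cnt t n : ℕ∞) + 1 := by gcongr
        _ = (support σ).encard + 1 + 2 * (cnt t n : ℕ∞) := by ring
        _ ≤ _ := by
            rw [add_zero]
            gcongr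
            exact hj.trans h3) f ⟨σ0, hσ0, hrep0, by simp⟩
  refine ⟨φ, r, h0, hr, fun m hm => ?_⟩
  obtain ⟨σ, -, hrep, hinv⟩ := hgood m
  obtain ⟨k, hk⟩ := hne m σ hinv
  have h1 := le_hasSum (hrep.hasSum hT) k fun j _ => sq_nonneg _
  rw [hm, norm_zero] at h1
  exact hk (by nlinarith)

/-- A realization that stays away from zero. -/
theorem exists_bad_real [CompleteSpace U]
    (hT : ∀ u v u' v', inner ℝ (T u v) (T u' v') = inner ℝ u u' * inner ℝ v v')
    (e : ℕ → U) (he : Orthonormal ℝ e)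
    (D : Set H) (hD : ∀ g, g ∈ D ↔ ∃ x y : U, ‖x‖ = 1 ∧ ‖y‖ = 1 ∧ g = T x y)
    (hdense : Dense (Submodule.span ℝ D : Set H))
    (t : ℕ → ℝ) (ht : ∀ k, 1 ≤ k → 0 ≤ t k ∧ t k ≤ 1) (hV : InV t) (f : H)
    (hf : ∀ (n m : ℕ) (c : Fin n → ℝ) (g : Fin n → H), (∀ i, g i ∈ D) → f = ∑ i, c i • g i →
      2 * cnt t m < n + m) :
    ∃ φ r : ℕ → H, r 0 = f ∧ (∀ m : ℕ, φ (m + 1) ∈ D ∧
      t (m + 1) * sSup ((fun g => |inner ℝ (r m) g|) '' D) ≤ |inner ℝ (r m) (φ (m + 1))| ∧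
      r (m + 1) = r m - (inner ℝ (r m) (φ (m + 1))) • φ (m + 1)) ∧
      ∃ ε : ℝ, 0 < ε ∧ ∀ᶠ m in atTop, ε ≤ ‖r m‖ ^ 2 := by
  obtain ⟨p, l, δ, cost, hl1, hp, hl0, hl, hδ0, hδl, hδ5, hcost, hbd⟩ := exists_stages_one t hV
  obtain ⟨φ1, r1, h10, hr1, hne⟩ := exists_nonzero_real hT e he D hD hdense t ht f hf
  obtain ⟨κ, hκ⟩ : ∃ κ : ℝ, κ = ‖r1 (p 0)‖ := ⟨_, rfl⟩
  have hκ0 : 0 < κ := hκ ▸ norm_pos_iff.mpr (hne _)
  let G2 : ℕ → H → Prop := fun n g => ∃ (s : ℕ) (σ : ℕ → ℝ) (f : H), g = κ • f ∧ p s ≤ n ∧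
    n < p (s + 1) ∧ RepI T f σ ∧
    InvI σ (l s) (l (s + 1)) (1 - l (s + 1) * δ s * ((n : ℝ) - p s) / 5)
      (1 - ∑ s' ∈ range s, cost s' -
        (l s ^ 2 * ∑ k ∈ Ioc (p s) n, t k ^ 2 + δ s ^ 2 * ((n : ℝ) - p s)))
  have hnorm : ∀ n g, G2 n g → κ ^ 2 / 2 ≤ ‖g‖ ^ 2 := by
    rintro n _ ⟨s, σ, f, rfl, h1, h2, hrep, hinv⟩
    have h3 := hinv.2.2.1
    rw [(hrep.hasSum hT).tsum_eq] at h3
    have h4 := hbd s n h1 h2.le
    have h5 := hcost (s + 1)
    rw [sum_range_succ] at h5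
    rw [norm_smul, mul_pow, Real.norm_eq_abs, sq_abs]
    nlinarith [sq_nonneg κ]
  have hinit : G2 (p 0) (r1 (p 0)) := by
    obtain ⟨σ, hσ, hrep⟩ := exists_repI hT e he D hD hdense (κ⁻¹ • r1 (p 0))
    have h1 := hrep.hasSum hT
    rw [norm_smul, norm_inv, Real.norm_of_nonneg hκ0.le, ← hκ, inv_mul_cancel₀ hκ0.ne',
      one_pow] at h1
    refine ⟨0, σ, _, (smul_inv_smul₀ hκ0.ne' _).symm, le_rfl, hp 0, hrep, ?_⟩
    refine (InvI.start (E := 1) h1.summable (fun i => ⟨hσ i, ?_⟩) h1.tsum_eq.ge h1.tsum_eq.le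
      (hl0 _)).mono (by simp) (by simp)
    rw [hl1]
    have h2 := le_hasSum h1 i fun j _ => sq_nonneg _
    nlinarith [hσ i]
  have hstep : ∀ n g, G2 n g → ∃ φ, φ ∈ D ∧
      t (n + 1) * sSup ((fun g' => |inner ℝ g g'|) '' D) ≤ |inner ℝ g φ| ∧
      G2 (n + 1) (g - (inner ℝ g φ) • φ) := by
    rintro n _ ⟨s, σ, f, rfl, h1, h2, hrep, hinv⟩
    obtain ⟨ht0, ht1⟩ := ht (n + 1) (by omega)
    obtain ⟨i, j, c, hij, hc, hcσ, hmax, htc, hnext⟩ :=
      hinv.step (hl0 _) (hl s) (hδ0 s) (hδl s) ht0 ht1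
    obtain ⟨φ, hφ, hs, a, b, f', ha, hb, hab1, hab2, hrep', hg'⟩ :=
      hrep.step' hT hD (fun k => (hinv.2.1 k).1) hij hmax hc hcσ ht0 htc hκ0.le
    have hinv' := hnext a b ha hb hab1 hab2
    refine ⟨φ, hφ, hs, ?_⟩
    have hinv2 : InvI (update (update σ i a) j b) (l s) (l (s + 1))
        (1 - l (s + 1) * δ s * (((n + 1 : ℕ) : ℝ) - p s) / 5)
        (1 - ∑ s' ∈ range s, cost s' -
          (l s ^ 2 * ∑ k ∈ Ioc (p s) (n + 1), t k ^ 2
            + δ s ^ 2 * (((n + 1 : ℕ) : ℝ) - p s))) := by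
      refine hinv'.mono (le_of_eq ?_) (le_of_eq ?_)
      · push_cast; ring
      · rw [sum_Ioc_succ_top h1]; push_cast; ring
    rcases Nat.lt_or_ge (n + 1) (p (s + 1)) with hlt | hge
    · exact ⟨s, _, f', hg', by omega, hlt, hrep', hinv2⟩
    · have heq : n + 1 = p (s + 1) := by omega
      refine ⟨s + 1, _, f', hg', heq.ge, by rw [heq]; exact hp _, hrep', ?_⟩
      have h5 := hδ5 s
      have h6 := hbd s (n + 1) (by omega) heq.le
      refine (hinv2.transition (hl0 _) ?_ (hl0 (s + 1 + 1))).mono ?_ ?_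
      · rw [heq, h5]; norm_num
      · rw [heq]; simp
      · rw [sum_range_succ, ← heq]
        simp only [Ioc_self, sum_empty, mul_zero, sub_self, add_zero, sub_zero]
        linarith
  have hfirst : ∀ n, n ≤ p 0 → (n < p 0 ∧ r1 n = r1 n) ∨ G2 n (r1 n) := fun n hn =>
    hn.lt_or_eq.imp (fun h => ⟨h, rfl⟩) fun h : n = p 0 => by rw [h]; exact hinit
  obtain ⟨φ, r, h0, hr, hgood⟩ := exists_real D t
    (fun n g => (n < p 0 ∧ g = r1 n) ∨ G2 n g) (by
      rintro n g (⟨hn, rfl⟩ | h)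
      · obtain ⟨h1, h2, h3⟩ := hr1 n
        exact ⟨_, h1, h2, h3 ▸ hfirst (n + 1) hn⟩
      · obtain ⟨φ, h1, h2, h3⟩ := hstep n g h
        exact ⟨φ, h1, h2, Or.inr h3⟩) f (h10 ▸ hfirst 0 (Nat.zero_le _))
  refine ⟨φ, r, h0, hr, κ ^ 2 / 2, by positivity, ?_⟩
  filter_upwards [eventually_ge_atTop (p 0)] with m hm
  exact hnorm m _ ((hgood m).resolve_left fun h => absurd h.1 (not_lt.mpr hm))

/-- An extremal step lowers the number of products by one. -/
lemma rank_drop [CompleteSpace U]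
    (hT : ∀ u v u' v', inner ℝ (T u v) (T u' v') = inner ℝ u u' * inner ℝ v v')
    {k : ℕ} (u v : Fin (k + 1) → U) {f : H} (hf : f = ∑ i, T (u i) (v i)) {x y : U}
    (hx : ‖x‖ = 1) (hy : ‖y‖ = 1)
    (h : ∀ x' y' : U, ‖x'‖ = 1 → ‖y'‖ = 1 → |inner ℝ f (T x' y')| ≤ |inner ℝ f (T x y)|)
    (hc : inner ℝ f (T x y) ≠ 0) :
    ∃ u' v' : Fin k → U, f - (inner ℝ f (T x y)) • T x y = ∑ i, T (u' i) (v' i) := by
  have k1 : ∀ a, inner ℝ f (T a y) = inner ℝ f (T x y) * inner ℝ x a :=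
    eq_inner_of_extremal ((formC T hT f).flip y) hx fun a ha => h a y ha hy
  have k2 : ∀ b, inner ℝ f (T x b) = inner ℝ f (T x y) * inner ℝ y b :=
    eq_inner_of_extremal (formC T hT f x) hy fun b hb => h x b hx hb
  have hin : ∀ a b, inner ℝ f (T a b) = ∑ i, inner ℝ (u i) a * inner ℝ (v i) b := fun a b => by
    rw [hf, sum_inner]
    exact sum_congr rfl fun i _ => hT _ _ _ _
  have hc' := hin x y
  generalize inner ℝ f (T x y) = c at k1 k2 hc hc' ⊢
  have e1 : ∑ i, (inner ℝ (v i) y) • u i = c • x := by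
    refine ext_inner_right ℝ fun a => ?_
    rw [real_inner_smul_left, ← k1, hin, sum_inner]
    exact sum_congr rfl fun i _ => by rw [real_inner_smul_left, mul_comm]
  have e2 : ∑ i, (inner ℝ (u i) x) • v i = c • y := by
    refine ext_inner_right ℝ fun b => ?_
    rw [real_inner_smul_left, ← k2, hin, sum_inner]
    exact sum_congr rfl fun i _ => by rw [real_inner_smul_left]
  obtain ⟨i0, hi0⟩ : ∃ i0, inner ℝ (v i0) y ≠ 0 := by
    by_contra hcon
    push Not at hcon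
    exact hc (by rw [hc']; exact sum_eq_zero fun i _ => by rw [hcon, mul_zero])
  obtain ⟨w, hw⟩ : ∃ w : Fin (k + 1) → U, ∀ i, w i = u i - (inner ℝ (u i) x) • x :=
    ⟨_, fun _ => rfl⟩
  have e3 : ∑ i, (inner ℝ (v i) y) • w i = 0 := by
    simp only [hw, smul_sub, sum_sub_distrib, smul_smul]
    rw [e1, ← sum_smul, hc', sub_eq_zero]
    exact congrArg (· • x) (sum_congr rfl fun i _ => mul_comm _ _)
  have e4 : f - c • T x y = ∑ i, T (w i) (v i) := by
    simp only [hw, map_sub, map_smul, LinearMap.sub_apply, LinearMap.smul_apply, sum_sub_distrib]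
    rw [← hf, ← map_smul, ← e2, map_sum]
    simp only [map_smul]
  rw [Fin.sum_univ_succAbove _ i0] at e3 e4
  have e5 : w i0 = -((inner ℝ (v i0) y)⁻¹ •
      ∑ j, (inner ℝ (v (i0.succAbove j)) y) • w (i0.succAbove j)) := by
    rw [← smul_neg, ← eq_neg_of_add_eq_zero_left e3, inv_smul_smul₀ hi0]
  refine ⟨fun j => w (i0.succAbove j), fun j => v (i0.succAbove j)
    - ((inner ℝ (v i0) y)⁻¹ * inner ℝ (v (i0.succAbove j)) y) • v i0, ?_⟩
  rw [e4, e5]
  simp only [map_neg, map_smul, map_sum, map_sub, LinearMap.neg_apply, LinearMap.smul_apply,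
    LinearMap.sum_apply, sum_sub_distrib, smul_sum, mul_smul]
  abel

/-- Enough full steps force every realization to stop at zero. -/
theorem eventually_zero [CompleteSpace U]
    (hT : ∀ u v u' v', inner ℝ (T u v) (T u' v') = inner ℝ u u' * inner ℝ v v')
    (D : Set H) (hD : ∀ g, g ∈ D ↔ ∃ x y : U, ‖x‖ = 1 ∧ ‖y‖ = 1 ∧ g = T x y)
    (hdense : Dense (Submodule.span ℝ D : Set H)) (t : ℕ → ℝ) (φ r : ℕ → H)
    (hr : ∀ m : ℕ, φ (m + 1) ∈ D ∧
      t (m + 1) * sSup ((fun g => |inner ℝ (r m) g|) '' D) ≤ |inner ℝ (r m) (φ (m + 1))| ∧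
      r (m + 1) = r m - (inner ℝ (r m) (φ (m + 1))) • φ (m + 1))
    {n m0 : ℕ} (c : Fin n → ℝ) (g : Fin n → H) (hg : ∀ i, g i ∈ D) (h0 : r 0 = ∑ i, c i • g i)
    (hm0 : n + m0 ≤ 2 * cnt t m0) : ∀ᶠ m in atTop, r m = 0 := by
  have hD1 : ∀ g ∈ D, ‖g‖ = 1 := by
    intro g hg
    obtain ⟨x, y, hx, hy, rfl⟩ := (hD g).mp hg
    rw [norm_tens hT, hx, hy, one_mul]
  have hz : ∀ m, r m = 0 → r (m + 1) = 0 := fun m h => by
    rw [(hr m).2.2, h]
    simp
  have key : ∀ m, r m = 0 ∨ ∃ (k : ℕ) (u v : Fin k → U), r m = ∑ i, T (u i) (v i) ∧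
      k + 2 * cnt t m ≤ n + m := by
    intro m
    induction m with
    | zero =>
      choose x y hxy using fun i => (hD _).mp (hg i)
      refine Or.inr ⟨n, fun i => c i • x i, y, ?_, by simp [cnt]⟩
      rw [h0]
      exact sum_congr rfl fun i _ => by rw [(hxy i).2.2, map_smul, LinearMap.smul_apply]
    | succ m ih =>
      rcases ih with h | ⟨k, u, v, hsum, hk⟩
      · exact Or.inl (hz m h)
      obtain ⟨h1, h2, h3⟩ := hr m
      obtain ⟨x, y, hx, hy, hφ⟩ := (hD _).mp h1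
      rw [hφ] at h2 h3
      rw [cnt_succ]
      split_ifs with ht
      · rw [ht, one_mul] at h2
        by_cases hc : inner ℝ (r m) (T x y) = 0
        · refine Or.inl (hz m (hdense.eq_zero_of_inner_left ℝ fun w hw => ?_))
          obtain ⟨B, hB, hb⟩ := exists_bound_of_mem_span D hD1 hw
          rw [hc, abs_zero] at h2
          exact abs_nonpos_iff.mp ((hb _).trans (mul_nonpos_of_nonneg_of_nonpos hB h2))
        · cases k with
          | zero => exact Or.inl (hz m (by simpa using hsum))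
          | succ k =>
            obtain ⟨u', v', h4⟩ := rank_drop hT u v hsum hx hy (fun x' y' hx' hy' =>
              (le_sSup_inner D hD1 _ ((hD _).mpr ⟨x', y', hx', hy', rfl⟩)).trans h2) hc
            exact Or.inr ⟨k, u', v', h3.trans h4, by omega⟩
      · refine Or.inr ⟨k + 1, Fin.cons (-((inner ℝ (r m) (T x y)) • x)) u, Fin.cons y v, ?_,
          by omega⟩
        rw [h3, Fin.sum_univ_succ]
        simp only [Fin.cons_zero, Fin.cons_succ, ← hsum, map_neg, map_smul, LinearMap.neg_apply,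
          LinearMap.smul_apply]
        abel
  have h1 : r m0 = 0 := by
    rcases key m0 with h | ⟨k, u, v, hsum, hk⟩
    · exact h
    · obtain rfl : k = 0 := by omega
      simpa using hsum
  filter_upwards [eventually_ge_atTop m0] with m hm
  induction m, hm using Nat.le_induction with
  | base => exact h1
  | succ m _ ih => exact hz m ih

end Pool.Agent.Lib.MP_8ec86e_an
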