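import Pool.Agent.Lib.MP_8ec86e_an.Seq

/-!
Sufficiency of `t ∉ 𝒱` for the convergence of the Weak Greedy Algorithm, for an arbitrary
dictionary of an inner product space.
-/

open Filter Topology Finset

namespace Pool.Agent.Lib.MP_8ec86e_an

variable {H : Type*} [NormedAddCommGroup H] [InnerProductSpace ℝ H]

lemma norm_sq_step (x φ : H) (hφ : ‖φ‖ = 1) :
    ‖x - (inner ℝ x φ) • φ‖ ^ 2 = ‖x‖ ^ 2 - (inner ℝ x φ) ^ 2 := by
  rw [@norm_sub_sq_real, inner_smul_right, norm_smul, hφ, mul_one, Real.norm_eq_abs, sq_abs]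
  ring

lemma bddAbove_inner (D : Set H) (hD : ∀ g ∈ D, ‖g‖ = 1) (y : H) :
    BddAbove ((fun g => |inner ℝ y g|) '' D) := by
  refine ⟨‖y‖, ?_⟩
  rintro _ ⟨g, hg, rfl⟩
  have := abs_real_inner_le_norm y g
  rwa [hD g hg, mul_one] at this

lemma le_sSup_inner (D : Set H) (hD : ∀ g ∈ D, ‖g‖ = 1) (y : H) {g : H} (hg : g ∈ D) :
    |inner ℝ y g| ≤ sSup ((fun g => |inner ℝ y g|) '' D) :=
  le_csSup (bddAbove_inner D hD y) ⟨g, hg, rfl⟩

lemma sSup_inner_nonneg (D : Set H) (y : H) :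
    0 ≤ sSup ((fun g => |inner ℝ y g|) '' D) := by
  apply Real.sSup_nonneg
  rintro _ ⟨g, _, rfl⟩
  exact abs_nonneg _

lemma exists_bound_of_mem_span (D : Set H) (hD : ∀ g ∈ D, ‖g‖ = 1) {h : H}
    (hh : h ∈ Submodule.span ℝ D) :
    ∃ B : ℝ, 0 ≤ B ∧ ∀ y : H, |inner ℝ y h| ≤ B * sSup ((fun g => |inner ℝ y g|) '' D) := by
  induction hh using Submodule.span_induction with
  | mem x hx => exact ⟨1, zero_le_one, fun y => by rw [one_mul]; exact le_sSup_inner D hD y hx⟩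
  | zero => exact ⟨0, le_rfl, fun y => by simp⟩
  | add x z _ _ hx hz =>
    obtain ⟨B1, h1, h1'⟩ := hx
    obtain ⟨B2, h2, h2'⟩ := hz
    refine ⟨B1 + B2, add_nonneg h1 h2, fun y => ?_⟩
    rw [inner_add_right, add_mul]
    exact (abs_add_le _ _).trans (add_le_add (h1' y) (h2' y))
  | smul c x _ hx =>
    obtain ⟨B1, h1, h1'⟩ := hx
    refine ⟨|c| * B1, mul_nonneg (abs_nonneg _) h1, fun y => ?_⟩
    rw [inner_smul_right, abs_mul, mul_assoc]
    exact mul_le_mul_of_nonneg_left (h1' y) (abs_nonneg _)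

theorem tendsto_zero_of_not_inV (D : Set H) (hD : ∀ g ∈ D, ‖g‖ = 1)
    (hdense : Dense (Submodule.span ℝ D : Set H)) (t : ℕ → ℝ) (ht : ∀ k, 1 ≤ k → 0 ≤ t k)
    (hV : ¬ InV t) (φ r : ℕ → H)
    (hr : ∀ m : ℕ, φ (m + 1) ∈ D ∧
      t (m + 1) * sSup ((fun g => |inner ℝ (r m) g|) '' D) ≤ |inner ℝ (r m) (φ (m + 1))| ∧
      r (m + 1) = r m - (inner ℝ (r m) (φ (m + 1))) • φ (m + 1)) :
    Tendsto r atTop (𝓝 0) := by
  set c : ℕ → ℝ := fun m => inner ℝ (r m) (φ (m + 1)) with hc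
  have hstep : ∀ m, ‖r (m + 1)‖ ^ 2 = ‖r m‖ ^ 2 - c m ^ 2 := by
    intro m
    rw [(hr m).2.2]
    exact norm_sq_step _ _ (hD _ (hr m).1)
  have hanti : Antitone fun m => ‖r m‖ := by
    refine antitone_nat_of_succ_le fun m => ?_
    have := hstep m
    have h2 : ‖r (m + 1)‖ ^ 2 ≤ ‖r m‖ ^ 2 := by nlinarith [sq_nonneg (c m)]
    exact (pow_le_pow_iff_left₀ (norm_nonneg _) (norm_nonneg _) two_ne_zero).mp h2
  have hsumsq : ∀ m, ∑ j ∈ range m, c j ^ 2 = ‖r 0‖ ^ 2 - ‖r m‖ ^ 2 := by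
    intro m
    induction m with
    | zero => simp
    | succ m ih => rw [sum_range_succ, ih, hstep]; ring
  have hdecomp : ∀ m, r m = r 0 - ∑ j ∈ range m, c j • φ (j + 1) := by
    intro m
    induction m with
    | zero => simp
    | succ m ih =>
      rw [sum_range_succ, (hr m).2.2]
      nth_rewrite 1 [ih]
      simp only [hc]
      abel
  by_contra hnot
  apply hV
  -- the norms stay bounded below
  obtain ⟨ρ, hρ, hρm⟩ : ∃ ρ : ℝ, 0 < ρ ∧ ∀ m, ρ ≤ ‖r m‖ := by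
    by_contra hcon
    push Not at hcon
    apply hnot
    rw [NormedAddGroup.tendsto_nhds_zero]
    intro ε hε
    obtain ⟨m, hm⟩ := hcon ε hε
    filter_upwards [eventually_ge_atTop m] with n hn
    exact lt_of_le_of_lt (hanti hn) hm
  obtain ⟨h, hh, hdist⟩ : ∃ h ∈ (Submodule.span ℝ D : Set H), ‖r 0 - h‖ < ρ / 2 := by
    obtain ⟨h, hh, hd⟩ := Metric.mem_closure_iff.mp (hdense (r 0)) (ρ / 2) (by linarith)
    exact ⟨h, hh, by rwa [← dist_eq_norm]⟩
  obtain ⟨B, hB, hBy⟩ := exists_bound_of_mem_span D hD hh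
  refine inV_of_seq t (fun k => |c k|) B (ρ ^ 2 / 2) (by positivity) hB ht
    (fun k => abs_nonneg _) ?_ ?_
  · refine summable_of_sum_range_le (c := ‖r 0‖ ^ 2) (fun k => sq_nonneg _) fun n => ?_
    simp only [sq_abs]
    rw [hsumsq]
    linarith [sq_nonneg ‖r n‖]
  · intro m
    set s := sSup ((fun g => |inner ℝ (r m) g|) '' D) with hs
    have hs0 : 0 ≤ s := sSup_inner_nonneg D _
    have h1 : ‖r m‖ ^ 2 = inner ℝ (r m) (r 0 - h) + inner ℝ (r m) h
        - ∑ j ∈ range m, c j * inner ℝ (r m) (φ (j + 1)) := by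
      rw [← real_inner_self_eq_norm_sq]
      nth_rewrite 2 [hdecomp m]
      rw [inner_sub_right, inner_sub_right, inner_sum]
      simp only [inner_smul_right]
      ring
    have h2 : inner ℝ (r m) (r 0 - h) ≤ ‖r m‖ ^ 2 / 2 := by
      have := real_inner_le_norm (r m) (r 0 - h)
      have h3 := hρm m
      have h4 : ‖r m‖ * ‖r 0 - h‖ ≤ ‖r m‖ * (‖r m‖ / 2) :=
        mul_le_mul_of_nonneg_left (by linarith) (norm_nonneg _)
      nlinarith
    have h3 : inner ℝ (r m) h ≤ B * s := (le_abs_self _).trans (hBy _)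
    have h4 : -(∑ j ∈ range m, c j * inner ℝ (r m) (φ (j + 1))) ≤ (∑ j ∈ range m, |c j|) * s := by
      rw [← sum_neg_distrib, sum_mul]
      refine sum_le_sum fun j _ => ?_
      refine (neg_le_abs _).trans ?_
      rw [abs_mul]
      exact mul_le_mul_of_nonneg_left (le_sSup_inner D hD _ (hr j).1) (abs_nonneg _)
    have h5 : ρ ^ 2 ≤ ‖r m‖ ^ 2 := by
      have := hρm m
      gcongr
    have h6 : ρ ^ 2 / 2 ≤ s * (B + ∑ j ∈ range m, |c j|) := by nlinarith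
    have h7 : t (m + 1) * s ≤ |c m| := (hr m).2.1
    have h8 : 0 ≤ B + ∑ j ∈ range m, |c j| := add_nonneg hB (sum_nonneg fun j _ => abs_nonneg _)
    have h9 := ht (m + 1) (by omega)
    calc ρ ^ 2 / 2 * t (m + 1) ≤ s * (B + ∑ j ∈ range m, |c j|) * t (m + 1) :=
          mul_le_mul_of_nonneg_right h6 h9
      _ = (t (m + 1) * s) * (B + ∑ j ∈ range m, |c j|) := by ring
      _ ≤ _ := mul_le_mul_of_nonneg_right h7 h8

end Pool.Agent.Lib.MP_8ec86e_an
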