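import Pool.Agent.Lib.MP_8ec86e_an.Block
import Pool.Agent.Lib.MP_8ec86e_an.Suff

/-!
Schmidt expansions of arbitrary elements of a Hilbert tensor product.
-/

open Finset Function Filter Topology

namespace Pool.Agent.Lib.MP_8ec86e_an

variable {U H : Type*} [NormedAddCommGroup U] [InnerProductSpace ℝ U]
  [NormedAddCommGroup H] [InnerProductSpace ℝ H]

/-- `f` has the Schmidt expansion `∑ σ i • u i ⊗ v i`. -/
def RepI (T : U →ₗ[ℝ] U →ₗ[ℝ] H) (f : H) (σ : ℕ → ℝ) : Prop :=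
  ∃ u v : ℕ → U, Orthonormal ℝ u ∧ Orthonormal ℝ v ∧
    Tendsto (fun N => ∑ i ∈ range N, σ i • T (u i) (v i)) atTop (𝓝 f)

variable {T : U →ₗ[ℝ] U →ₗ[ℝ] H}

lemma RepI.bound (hT : ∀ u v u' v', inner ℝ (T u v) (T u' v') = inner ℝ u u' * inner ℝ v v')
    {f : H} {σ : ℕ → ℝ} (h : RepI T f σ) {M : ℝ} (hM : 0 ≤ M)
    (hσ : ∀ i, 0 ≤ σ i ∧ σ i ≤ M) {x y : U} (hx : ‖x‖ = 1) (hy : ‖y‖ = 1) :
    |inner ℝ f (T x y)| ≤ M := by
  obtain ⟨u, v, hu, hv, hf⟩ := h
  exact le_of_tendsto' (hf.inner (𝕜 := ℝ) (tendsto_const_nhds (x := T x y))).abs fun N =>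
    Rep.bound hT ⟨u, v, hu, hv, rfl⟩ hM hσ hx hy

lemma RepI.hasSum (hT : ∀ u v u' v', inner ℝ (T u v) (T u' v') = inner ℝ u u' * inner ℝ v v')
    {f : H} {σ : ℕ → ℝ} (h : RepI T f σ) : HasSum (fun i => σ i ^ 2) (‖f‖ ^ 2) := by
  obtain ⟨u, v, hu, hv, hf⟩ := h
  rw [hasSum_iff_tendsto_nat_of_nonneg fun i => sq_nonneg _]
  exact (hf.norm.pow 2).congr fun N => Rep.norm_sq hT ⟨u, v, hu, hv, rfl⟩

lemma RepI.step (hT : ∀ u v u' v', inner ℝ (T u v) (T u' v') = inner ℝ u u' * inner ℝ v v')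
    {f : H} {σ : ℕ → ℝ} (h : RepI T f σ) {i j : ℕ}
    (hij : i ≠ j) {c : ℝ} (hc : 0 ≤ c) (hcσ : c ≤ σ i) (hr : 0 ≤ σ j) :
    ∃ x y : U, ‖x‖ = 1 ∧ ‖y‖ = 1 ∧ inner ℝ f (T x y) = c ∧
      ∃ a b : ℝ, 0 ≤ a ∧ 0 ≤ b ∧ a * b = (σ i - c) * (σ j + c) ∧ a - b = σ i - c - σ j ∧
        RepI T (f - c • T x y) (update (update σ i a) j b) := by
  obtain ⟨u, v, hu, hv, hf⟩ := h
  obtain ⟨C, S, hCS, hang⟩ := exists_angle (σ i) (σ j) c hr hc hcσ
  obtain ⟨α, β, l1, l2, hαβ, hl, hp, hw, hz⟩ :=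
    exists_diag (σ i - c * C ^ 2) (-(c * (C * S))) (-σ j - c * S ^ 2)
  have htr : l1 + l2 = σ i - c - σ j := by
    linear_combination -hp - hz - (l1 + l2) * hαβ - c * hCS
  have hdet : l1 * l2 = -((σ i - c) * (σ j + c)) := by
    have e1 : (σ i - c * C ^ 2) * (-σ j - c * S ^ 2) - (-(c * (C * S))) ^ 2
        = l1 * l2 * (α ^ 2 + β ^ 2) ^ 2 := by
      rw [hp, hz, hw]; ring
    rw [hαβ] at e1
    linear_combination -e1 + c * hang - c * (σ i - σ j) * hCS
  have hdet0 : l1 * l2 ≤ 0 := by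
    rw [hdet]
    have := mul_nonneg (sub_nonneg.mpr hcσ) (add_nonneg hr hc)
    linarith
  have hl1 : 0 ≤ l1 := by
    by_contra hneg
    push Not at hneg
    nlinarith [mul_pos_of_neg_of_neg hneg (lt_of_le_of_lt hl hneg)]
  have hl2 : l2 ≤ 0 := by
    by_contra hpos
    push Not at hpos
    nlinarith [mul_pos hpos (lt_of_lt_of_le hpos hl)]
  have hou := orthonormal_rotate hu hij hCS
  have hov := orthonormal_rotate hv hij (α := C) (β := -S) (by rw [neg_sq]; exact hCS)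
  have hx : ‖C • u i + S • u j‖ = 1 := by
    have := hou.1 i
    simpa [update_of_ne hij] using this
  have hy : ‖C • v i + (-S) • v j‖ = 1 := by
    have := hov.1 i
    simpa [update_of_ne hij] using this
  refine ⟨C • u i + S • u j, C • v i + (-S) • v j, hx, hy, ?_, l1, -l2, hl1, by linarith,
    by linarith, by linarith, ?_⟩
  · refine tendsto_nhds_unique (hf.inner (𝕜 := ℝ) tendsto_const_nhds)
      (tendsto_const_nhds.congr' ?_)
    filter_upwards [eventually_gt_atTop i, eventually_gt_atTop j] with N hi hj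
    rw [orthonormal_iff_ite] at hu hv
    rw [sum_inner, sum_range_split _ hi hj hij]
    have h0 : ∑ k ∈ ((range N).erase i).erase j,
        inner ℝ (σ k • T (u k) (v k)) (T (C • u i + S • u j) (C • v i + (-S) • v j)) = 0 := by
      refine sum_eq_zero fun k hk => ?_
      have hkj : k ≠ j := (mem_erase.mp hk).1
      have hki : k ≠ i := (mem_erase.mp (mem_erase.mp hk).2).1
      rw [inner_smul_left, hT]
      simp [inner_add_right, inner_smul_right, hu, hkj, hki]
    rw [h0, inner_smul_left, inner_smul_left, hT, hT]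
    simp only [inner_add_right, inner_smul_right, hu, hv, hij, hij.symm, if_true, if_false,
      conj_trivial]
    linear_combination -hang
  · refine ⟨_, _, orthonormal_rotate hu hij hαβ,
      orthonormal_rotate hv hij (α := α) (β := -β) (by rw [neg_sq]; exact hαβ),
      (hf.sub tendsto_const_nhds).congr' ?_⟩
    filter_upwards [eventually_gt_atTop i, eventually_gt_atTop j] with N hi hj
    rw [sum_range_split _ hi hj hij, sum_range_split _ hi hj hij]
    have h0 : ∑ k ∈ ((range N).erase i).erase j, update (update σ i l1) j (-l2) k •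
        T (update (update u i (α • u i + β • u j)) j ((-β) • u i + α • u j) k)
          (update (update v i (α • v i + (-β) • v j)) j ((- -β) • v i + α • v j) k)
        = ∑ k ∈ ((range N).erase i).erase j, σ k • T (u k) (v k) := by
      refine sum_congr rfl fun k hk => ?_
      have hkj : k ≠ j := (mem_erase.mp hk).1
      have hki : k ≠ i := (mem_erase.mp (mem_erase.mp hk).2).1
      simp only [update_of_ne hkj, update_of_ne hki]
    rw [h0]
    simp only [update_of_ne hij, update_self, map_add, map_smul, LinearMap.add_apply,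
      LinearMap.smul_apply]
    match_scalars
    · linear_combination hp
    · linear_combination -hz
    · ring
    · linear_combination hw
    · linear_combination -hw

lemma norm_tens (hT : ∀ u v u' v', inner ℝ (T u v) (T u' v') = inner ℝ u u' * inner ℝ v v')
    (x y : U) : ‖T x y‖ = ‖x‖ * ‖y‖ := by
  have h := hT x y x y
  rw [real_inner_self_eq_norm_sq, real_inner_self_eq_norm_sq, real_inner_self_eq_norm_sq,
    ← mul_pow] at h
  exact (pow_left_inj₀ (norm_nonneg _) (by positivity) two_ne_zero).mp h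

lemma exists_unit_apply [CompleteSpace U] (e : U) (he : ‖e‖ = 1) (z : U →L[ℝ] ℝ) :
    ∃ y : U, ‖y‖ = 1 ∧ z y = ‖z‖ := by
  obtain ⟨w, rfl⟩ := (InnerProductSpace.toDual ℝ U).surjective z
  by_cases hw : w = 0
  · exact ⟨e, he, by simp [hw]⟩
  · have h0 : ‖w‖ ≠ 0 := norm_ne_zero_iff.mpr hw
    refine ⟨‖w‖⁻¹ • w, by rw [norm_smul, norm_inv, norm_norm, inv_mul_cancel₀ h0], ?_⟩
    rw [LinearIsometryEquiv.norm_map, InnerProductSpace.toDual_apply_apply, real_inner_smul_right,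
      real_inner_self_eq_norm_sq]
    field_simp

/-- A functional that is extremal at a unit vector is a multiple of the inner product with it. -/
lemma eq_inner_of_extremal [CompleteSpace U] (z : U →L[ℝ] ℝ) {x : U} (hx : ‖x‖ = 1)
    (h : ∀ u : U, ‖u‖ = 1 → |z u| ≤ |z x|) (u : U) : z u = z x * inner ℝ x u := by
  obtain ⟨y, hy, hzy⟩ := exists_unit_apply x hx z
  obtain ⟨w, rfl⟩ := (InnerProductSpace.toDual ℝ U).surjective z
  have h1 := h y hy
  rw [hzy, LinearIsometryEquiv.norm_map, abs_norm, InnerProductSpace.toDual_apply_apply] at h1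
  simp only [InnerProductSpace.toDual_apply_apply]
  have h2 : ‖w‖ ^ 2 ≤ (inner ℝ w x) ^ 2 := by
    rw [← sq_abs (inner ℝ w x)]
    exact pow_le_pow_left₀ (norm_nonneg _) h1 2
  have h3 := norm_sq_step w x hx
  have h4 : w - (inner ℝ w x) • x = 0 := by
    rw [← norm_eq_zero, ← sq_eq_zero_iff (M₀ := ℝ)]
    exact le_antisymm (by linarith) (sq_nonneg _)
  rw [← real_inner_smul_left, ← sub_eq_zero.mp h4]

/-- The tensor map as a continuous bilinear map. -/
noncomputable def tensC (T : U →ₗ[ℝ] U →ₗ[ℝ] H)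
    (hT : ∀ u v u' v', inner ℝ (T u v) (T u' v') = inner ℝ u u' * inner ℝ v v') :
    U →L[ℝ] U →L[ℝ] H :=
  T.mkContinuous₂ 1 fun x y => by rw [norm_tens hT, one_mul]

/-- The bilinear form of an element. -/
noncomputable def formC (T : U →ₗ[ℝ] U →ₗ[ℝ] H)
    (hT : ∀ u v u' v', inner ℝ (T u v) (T u' v') = inner ℝ u u' * inner ℝ v v') (f : H) :
    U →L[ℝ] U →L[ℝ] ℝ :=
  (ContinuousLinearMap.compL ℝ U H ℝ (innerSL ℝ f)).comp (tensC T hT)

lemma formC_apply (hT : ∀ u v u' v', inner ℝ (T u v) (T u' v') = inner ℝ u u' * inner ℝ v v')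
    (f : H) (x y : U) : formC T hT f x y = inner ℝ f (T x y) := rfl

lemma compact_formC (hT : ∀ u v u' v', inner ℝ (T u v) (T u' v') = inner ℝ u u' * inner ℝ v v')
    (D : Set H) (hD : ∀ g, g ∈ D ↔ ∃ x y : U, ‖x‖ = 1 ∧ ‖y‖ = 1 ∧ g = T x y)
    (hdense : Dense (Submodule.span ℝ D : Set H)) (f : H) :
    IsCompactOperator (formC T hT f) := by
  have hcont : Continuous (formC T hT) :=
    ((ContinuousLinearMap.compL ℝ U H ℝ).continuous.comp (innerSL ℝ).continuous).clm_comp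
      continuous_const
  have hcl : IsClosed {f : H | IsCompactOperator (formC T hT f)} :=
    isClosed_setOfPred_isCompactOperator.preimage hcont
  refine hdense.induction (P := fun f => IsCompactOperator (formC T hT f)) (fun g hg => ?_) hcl f
  induction hg using Submodule.span_induction with
  | mem g hg =>
    obtain ⟨a, b, -, -, rfl⟩ := (hD g).mp hg
    have h1 := (isCompactOperator_of_locallyCompactSpace_dom (innerSL ℝ a)).clm_comp
      (ContinuousLinearMap.toSpanSingleton ℝ (innerSL ℝ b))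
    have e : ⇑(formC T hT (T a b))
        = ⇑(ContinuousLinearMap.toSpanSingleton ℝ (innerSL ℝ b)) ∘ ⇑(innerSL ℝ a) := by
      funext x
      ext y
      rw [formC_apply, hT]
      simp
    rw [e]
    exact h1
  | zero =>
    have e : ⇑(formC T hT (0 : H)) = 0 := by
      funext x
      ext y
      rw [formC_apply]
      simp
    rw [e]
    exact isCompactOperator_zero
  | add g g' _ _ h h' =>
    have e : ⇑(formC T hT (g + g')) = ⇑(formC T hT g) + ⇑(formC T hT g') := by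
      funext x
      ext y
      simp [formC_apply, inner_add_left]
    rw [e]
    exact h.add h'
  | smul c g _ h =>
    have e : ⇑(formC T hT (c • g)) = c • ⇑(formC T hT g) := by
      funext x
      ext y
      simp [formC_apply, inner_smul_left]
    rw [e]
    exact h.smul c

lemma exists_top_pair [CompleteSpace U]
    (hT : ∀ u v u' v', inner ℝ (T u v) (T u' v') = inner ℝ u u' * inner ℝ v v')
    (e : U) (he : ‖e‖ = 1)
    (D : Set H) (hD : ∀ g, g ∈ D ↔ ∃ x y : U, ‖x‖ = 1 ∧ ‖y‖ = 1 ∧ g = T x y)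
    (hdense : Dense (Submodule.span ℝ D : Set H)) (f : H) :
    ∃ x y : U, ‖x‖ = 1 ∧ ‖y‖ = 1 ∧
      ∀ x' y' : U, ‖x'‖ = 1 → ‖y'‖ = 1 → |inner ℝ f (T x' y')| ≤ inner ℝ f (T x y) := by
  have hK := IsCompactOperator.isCompact_closure_image_closedBall
    (f := (formC T hT f : U →ₗ[ℝ] U →L[ℝ] ℝ)) (compact_formC hT D hD hdense f) 1
  obtain ⟨z, hz, hmax⟩ := hK.exists_isMaxOn
    ⟨_, subset_closure ⟨0, Metric.mem_closedBall_self zero_le_one, rfl⟩⟩
    continuous_norm.continuousOn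
  obtain ⟨y, hy, hzy⟩ := exists_unit_apply e he z
  obtain ⟨x, hx, hgx⟩ := exists_unit_apply e he ((formC T hT f).flip y)
  refine ⟨x, y, hx, hy, fun x' y' hx' hy' => ?_⟩
  have h1 : z y ≤ ‖(formC T hT f).flip y‖ := by
    have hcl : IsClosed {w : U →L[ℝ] ℝ | w y ≤ ‖(formC T hT f).flip y‖} :=
      isClosed_le (continuous_eval_const y) continuous_const
    refine hcl.closure_subset_iff.mpr ?_ hz
    rintro _ ⟨a, ha, rfl⟩
    have h2 := ((formC T hT f).flip y).unit_le_opNorm a (mem_closedBall_zero_iff.mp ha)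
    exact (le_abs_self _).trans h2
  have h2 : ‖formC T hT f x'‖ ≤ ‖z‖ :=
    hmax (subset_closure ⟨x', mem_closedBall_zero_iff.mpr hx'.le, rfl⟩)
  have h3 := (formC T hT f x').unit_le_opNorm y' hy'.le
  rw [← hgx, hzy] at h1
  exact h3.trans (h2.trans h1)

lemma exists_unit_orth (e : ℕ → U) (he : Orthonormal ℝ e) (S : Finset U) :
    ∃ x : U, ‖x‖ = 1 ∧ ∀ a ∈ S, inner ℝ x a = 0 := by
  have hne : (Submodule.span ℝ (S : Set U))ᗮ ≠ ⊥ := by
    intro h
    rw [Submodule.orthogonal_eq_bot_iff] at h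
    have : Module.Finite ℝ U := ⟨⟨S, h⟩⟩
    exact Module.Finite.not_linearIndependent_of_infinite e he.linearIndependent
  obtain ⟨w, hw, hw0⟩ := Submodule.exists_mem_ne_zero_of_ne_bot hne
  have h0 : ‖w‖ ≠ 0 := norm_ne_zero_iff.mpr hw0
  refine ⟨‖w‖⁻¹ • w, by rw [norm_smul, norm_inv, norm_norm, inv_mul_cancel₀ h0], fun a ha => ?_⟩
  rw [real_inner_smul_left,
    Submodule.inner_left_of_mem_orthogonal (Submodule.subset_span (mem_coe.mpr ha)) hw, mul_zero]

lemma not_inV_one : ¬InV fun _ => 1 := by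
  rintro ⟨-, q, -, hq, hA, hB⟩
  have h1 := hA.tendsto_atTop_zero.mul hB.tendsto_atTop_zero
  rw [mul_zero] at h1
  obtain ⟨s, hs⟩ := (h1.eventually (eventually_lt_nhds zero_lt_one)).exists
  have hqd : (q s : ℝ) < q (s + 1) := by exact_mod_cast hq (Nat.lt_succ_self s)
  have h2 : (0 : ℝ) ≤ q s := Nat.cast_nonneg _
  simp only [one_pow, sum_const, Nat.card_Icc, add_tsub_cancel_right, nsmul_eq_mul,
    mul_one] at hs
  have h3 : (0 : ℝ) < (q (s + 1) : ℝ) - q s := by linarith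
  have e : (2 : ℝ) ^ (s + 1) / ((q (s + 1) : ℝ) - q s) * ((2 ^ (s + 1))⁻¹ * q (s + 1))
      = q (s + 1) / ((q (s + 1) : ℝ) - q s) := by
    field_simp
  rw [e, div_lt_one h3] at hs
  linarith

lemma exists_repI [CompleteSpace U]
    (hT : ∀ u v u' v', inner ℝ (T u v) (T u' v') = inner ℝ u u' * inner ℝ v v')
    (e : ℕ → U) (he : Orthonormal ℝ e)
    (D : Set H) (hD : ∀ g, g ∈ D ↔ ∃ x y : U, ‖x‖ = 1 ∧ ‖y‖ = 1 ∧ g = T x y)
    (hdense : Dense (Submodule.span ℝ D : Set H)) (f : H) :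
    ∃ σ : ℕ → ℝ, (∀ i, 0 ≤ σ i) ∧ RepI T f σ := by
  classical
  let P : H × Finset U × Finset U → Prop := fun s =>
    (∀ a ∈ s.2.1, ∀ y, inner ℝ s.1 (T a y) = 0) ∧ ∀ b ∈ s.2.2, ∀ x, inner ℝ s.1 (T x b) = 0
  have hstep : ∀ s, P s → ∃ x y : U, ‖x‖ = 1 ∧ ‖y‖ = 1 ∧ (∀ a ∈ s.2.1, inner ℝ x a = 0) ∧
      (∀ b ∈ s.2.2, inner ℝ y b = 0) ∧
      (∀ x' y' : U, ‖x'‖ = 1 → ‖y'‖ = 1 → |inner ℝ s.1 (T x' y')| ≤ inner ℝ s.1 (T x y)) ∧
      P (s.1 - (inner ℝ s.1 (T x y)) • T x y, insert x s.2.1, insert y s.2.2) := by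
    rintro ⟨g, A, B⟩ ⟨hA, hB⟩
    have key : ∀ x y : U, ‖x‖ = 1 → ‖y‖ = 1 →
        (∀ x' y' : U, ‖x'‖ = 1 → ‖y'‖ = 1 → |inner ℝ g (T x' y')| ≤ inner ℝ g (T x y)) →
        (∀ u, inner ℝ g (T u y) = inner ℝ g (T x y) * inner ℝ x u) ∧
          ∀ v, inner ℝ g (T x v) = inner ℝ g (T x y) * inner ℝ y v := fun x y hx hy h =>
      ⟨eq_inner_of_extremal ((formC T hT g).flip y) hx
          fun u hu => (h u y hu hy).trans (le_abs_self _),
        eq_inner_of_extremal (formC T hT g x) hy fun u hu => (h x u hx hu).trans (le_abs_self _)⟩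
    obtain ⟨x, y, hx, hy, hxa, hyb, htop⟩ : ∃ x y : U, ‖x‖ = 1 ∧ ‖y‖ = 1 ∧
        (∀ a ∈ A, inner ℝ x a = 0) ∧ (∀ b ∈ B, inner ℝ y b = 0) ∧
        ∀ x' y' : U, ‖x'‖ = 1 → ‖y'‖ = 1 → |inner ℝ g (T x' y')| ≤ inner ℝ g (T x y) := by
      obtain ⟨x, y, hx, hy, htop⟩ := exists_top_pair hT (e 0) (he.1 0) D hD hdense g
      by_cases h0 : inner ℝ g (T x y) = 0
      · obtain ⟨x', hx', hxa⟩ := exists_unit_orth e he A
        obtain ⟨y', hy', hyb⟩ := exists_unit_orth e he B
        rw [h0] at htop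
        refine ⟨x', y', hx', hy', hxa, hyb, fun x'' y'' h1 h2 => ?_⟩
        rw [abs_nonpos_iff.mp (htop x' y' hx' hy')]
        exact htop _ _ h1 h2
      · obtain ⟨k1, k2⟩ := key x y hx hy htop
        exact ⟨x, y, hx, hy,
          fun a ha => (mul_eq_zero.mp ((k1 a).symm.trans (hA a ha y))).resolve_left h0,
          fun b hb => (mul_eq_zero.mp ((k2 b).symm.trans (hB b hb x))).resolve_left h0, htop⟩
    obtain ⟨k1, k2⟩ := key x y hx hy htop
    refine ⟨x, y, hx, hy, hxa, hyb, htop, fun a ha v => ?_, fun b hb u => ?_⟩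
    · change inner ℝ (g - (inner ℝ g (T x y)) • T x y) (T a v) = 0
      rw [inner_sub_left, real_inner_smul_left, hT]
      rcases mem_insert.mp ha with rfl | ha
      · rw [k2 v, real_inner_self_eq_norm_sq, hx]; ring
      · rw [hA a ha v, hxa a ha]; ring
    · change inner ℝ (g - (inner ℝ g (T x y)) • T x y) (T u b) = 0
      rw [inner_sub_left, real_inner_smul_left, hT]
      rcases mem_insert.mp hb with rfl | hb
      · rw [k1 u, real_inner_self_eq_norm_sq, hy]; ring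
      · rw [hB b hb u, hyb b hb]; ring
  choose! X Y hX using hstep
  let s : ℕ → H × Finset U × Finset U := fun n => Nat.rec (f, ∅, ∅)
    (fun _ s => (s.1 - (inner ℝ s.1 (T (X s) (Y s))) • T (X s) (Y s), insert (X s) s.2.1,
      insert (Y s) s.2.2)) n
  have hP : ∀ n, P (s n) := by
    intro n
    induction n with
    | zero => exact ⟨fun a ha => absurd ha (notMem_empty a), fun a ha => absurd ha (notMem_empty a)⟩
    | succ n ih => exact (hX _ ih).2.2.2.2.2
  have hmem : ∀ i n, i < n → X (s i) ∈ (s n).2.1 ∧ Y (s i) ∈ (s n).2.2 := by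
    intro i n hin
    induction n with
    | zero => omega
    | succ n ih =>
      rcases Nat.lt_succ_iff_lt_or_eq.mp hin with h | rfl
      · exact ⟨mem_insert_of_mem (ih h).1, mem_insert_of_mem (ih h).2⟩
      · exact ⟨mem_insert_self _ _, mem_insert_self _ _⟩
  have hD1 : ∀ g ∈ D, ‖g‖ = 1 := by
    intro g hg
    obtain ⟨x, y, hx, hy, rfl⟩ := (hD g).mp hg
    rw [norm_tens hT, hx, hy, one_mul]
  have hlim := tendsto_zero_of_not_inV D hD1 hdense (fun _ => 1) (fun _ _ => zero_le_one)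
    not_inV_one (fun n => T (X (s (n - 1))) (Y (s (n - 1)))) (fun n => (s n).1) fun m => by
      obtain ⟨hx, hy, -, -, htop, -⟩ := hX _ (hP m)
      refine ⟨(hD _).mpr ⟨_, _, hx, hy, rfl⟩, ?_, rfl⟩
      rw [one_mul]
      refine Real.sSup_le ?_ (abs_nonneg _)
      rintro _ ⟨g, hg, rfl⟩
      obtain ⟨x', y', hx', hy', rfl⟩ := (hD g).mp hg
      exact (htop x' y' hx' hy').trans (le_abs_self _)
  refine ⟨fun n => inner ℝ (s n).1 (T (X (s n)) (Y (s n))), fun n => ?_, fun n => X (s n),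
    fun n => Y (s n), ⟨fun n => (hX _ (hP n)).1, fun i j hij => ?_⟩,
    ⟨fun n => (hX _ (hP n)).2.1, fun i j hij => ?_⟩, ?_⟩
  · obtain ⟨hx, hy, -, -, htop, -⟩ := hX _ (hP n)
    exact (abs_nonneg _).trans (htop _ _ hx hy)
  · rcases lt_or_gt_of_ne hij with h | h
    · rw [real_inner_comm]
      exact (hX _ (hP j)).2.2.1 _ (hmem i j h).1
    · exact (hX _ (hP i)).2.2.1 _ (hmem j i h).1
  · rcases lt_or_gt_of_ne hij with h | h
    · rw [real_inner_comm]
      exact (hX _ (hP j)).2.2.2.1 _ (hmem i j h).2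
    · exact (hX _ (hP i)).2.2.2.1 _ (hmem j i h).2
  · have h1 := (tendsto_const_nhds (x := f)).sub hlim
    rw [sub_zero] at h1
    refine h1.congr fun N => ?_
    induction N with
    | zero => exact sub_self f
    | succ N ih =>
      rw [sum_range_succ, ← ih]
      change f - ((s N).1 - _) = _
      abel

end Pool.Agent.Lib.MP_8ec86e_an
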