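import Pool.Agent.Lib.MP_8ec86e_an.Defs

/-!
A real-variable criterion for membership in the class `𝒱`.
-/

open Filter Topology Finset

namespace Pool.Agent.Lib.MP_8ec86e_an

/-- For `x ≥ 0`, the finite sum of `x / 2^s` over those `s` with `x ≤ 2^s` is at most `2`. -/
lemma sum_ite_le_two (x : ℝ) (hx : 0 ≤ x) (S : ℕ) :
    ∑ s ∈ range S, (if x ≤ (2 : ℝ) ^ s then x / 2 ^ s else 0) ≤ 2 := by
  have key : ∀ S : ℕ, ∑ s ∈ range S, (if x ≤ (2 : ℝ) ^ s then x / 2 ^ s else 0)
      ≤ max 0 (2 - 2 * x / 2 ^ S) := by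
    intro S
    induction S with
    | zero => simp
    | succ n ih =>
      rw [sum_range_succ]
      have hp : (0 : ℝ) < 2 ^ n := by positivity
      have e : 2 * x / 2 ^ (n + 1) = x / 2 ^ n := by
        rw [pow_succ]; field_simp
      have e' : 2 * x / 2 ^ n = 2 * (x / 2 ^ n) := by ring
      rw [e]
      rw [e'] at ih
      have hy : 0 ≤ x / 2 ^ n := by positivity
      split_ifs with h
      · have h1 : x / 2 ^ n ≤ 1 := by rw [div_le_one hp]; exact h
        have : max 0 (2 - 2 * (x / 2 ^ n)) = 2 - 2 * (x / 2 ^ n) := max_eq_right (by linarith)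
        rw [this] at ih
        exact le_trans (by linarith) (le_max_right _ _)
      · rw [add_zero]
        refine ih.trans (max_le (le_max_left _ _) ?_)
        exact le_trans (by linarith) (le_max_right _ _)
  refine (key S).trans (max_le (by norm_num) ?_)
  have : 0 ≤ 2 * x / 2 ^ S := by positivity
  linarith

/-- Main criterion in the unbounded case. -/
lemma inV_of_unbounded (t a : ℕ → ℝ) (B γ : ℝ) (hγ : 0 < γ) (hB : 0 ≤ B)
    (ht : ∀ k, 1 ≤ k → 0 ≤ t k) (ha : ∀ k, 0 ≤ a k)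
    (hsum : Summable fun k => a k ^ 2)
    (hunb : Tendsto (fun n => ∑ j ∈ range n, a j) atTop atTop)
    (hle : ∀ n, γ * t (n + 1) ≤ a n * (B + ∑ j ∈ range n, a j)) : InV t := by
  refine ⟨ht, ?_⟩
  set S : ℕ → ℝ := fun n => B + ∑ j ∈ range n, a j with hS
  have hS0 : ∀ n, 0 ≤ S n := fun n => add_nonneg hB (sum_nonneg fun j _ => ha j)
  have hSmono : Monotone S := by
    refine monotone_nat_of_le_succ fun n => ?_
    simp only [hS, sum_range_succ]
    linarith [ha n]
  set ρ : ℝ := Real.sqrt 2 with hρ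
  have hρ2 : ρ ^ 2 = 2 := Real.sq_sqrt (by norm_num)
  have hρpos : 0 < ρ := Real.sqrt_pos.mpr (by norm_num)
  have hρ14 : 7 / 5 ≤ ρ := by
    rw [hρ]; apply Real.le_sqrt_of_sq_le; norm_num
  have hρpow : ∀ s : ℕ, (ρ ^ s) ^ 2 = 2 ^ s := by
    intro s; rw [← pow_mul, mul_comm, pow_mul, hρ2]
  have hex : ∀ s : ℕ, ∃ n, ρ ^ s < S n := by
    intro s
    obtain ⟨n, hn⟩ := (hunb.eventually_gt_atTop (ρ ^ s)).exists
    exact ⟨n, by simp only [hS]; linarith⟩
  classical
  set p : ℕ → ℕ := fun s => Nat.find (hex s) with hp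
  have hp1 : ∀ s, ρ ^ s < S (p s) := fun s => Nat.find_spec (hex s)
  have hp2 : ∀ s n, n < p s → S n ≤ ρ ^ s := fun s n hn => not_lt.mp (Nat.find_min (hex s) hn)
  -- a uniform bound for `a`
  set A : ℝ := Real.sqrt (∑' k, a k ^ 2) with hA
  have hA0 : 0 ≤ A := Real.sqrt_nonneg _
  have haA : ∀ k, a k ≤ A := by
    intro k
    rw [hA]
    apply Real.le_sqrt_of_sq_le
    exact hsum.le_tsum k fun j _ => sq_nonneg _
  have hp3 : ∀ s, S (p s) ≤ ρ ^ s + A + B := by
    intro s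
    rcases Nat.eq_zero_or_pos (p s) with h | h
    · rw [h]; simp only [hS, range_zero, sum_empty]
      have : 0 < ρ ^ s := by positivity
      linarith
    · obtain ⟨m, hm⟩ : ∃ m, p s = m + 1 := ⟨p s - 1, by omega⟩
      have h1 := hp2 s m (by omega)
      rw [hm]
      simp only [hS, sum_range_succ] at h1 ⊢
      linarith [haA m]
  have hρ1 : 1 < ρ := by linarith
  obtain ⟨s0, hs0⟩ : ∃ s0 : ℕ, 5 * (A + B) ≤ ρ ^ s0 :=
    ((tendsto_pow_atTop_atTop_of_one_lt hρ1).eventually_ge_atTop _).exists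
  have hgap : ∀ s, s0 ≤ s → ρ ^ s / 5 ≤ S (p (s + 1)) - S (p s) := by
    intro s hs
    have h1 := hp1 (s + 1)
    have h2 := hp3 s
    have h3 : ρ ^ s0 ≤ ρ ^ s := pow_le_pow_right₀ hρ1.le hs
    have h4 : 0 < ρ ^ s := by positivity
    rw [pow_succ] at h1
    nlinarith
  have hlt : ∀ s, s0 ≤ s → p s < p (s + 1) := by
    intro s hs
    by_contra h
    have h1 := hSmono (not_lt.mp h)
    have h2 := hgap s hs
    have h4 : 0 < ρ ^ s := by positivity
    linarith
  -- Cauchy-Schwarz on a block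
  have hblock : ∀ s, s0 ≤ s → (2 : ℝ) ^ s / ((p (s + 1) : ℝ) - p s)
      ≤ 25 * ∑ k ∈ Ico (p s) (p (s + 1)), a k ^ 2 := by
    intro s hs
    have h1 := hgap s hs
    have hl := hlt s hs
    have h2 : S (p (s + 1)) - S (p s) = ∑ k ∈ Ico (p s) (p (s + 1)), a k := by
      simp only [hS]
      rw [sum_Ico_eq_sub _ hl.le]; ring
    have h3 := sq_sum_le_card_mul_sum_sq (s := Ico (p s) (p (s + 1))) (f := a)
    rw [Nat.card_Ico, Nat.cast_sub hl.le] at h3
    have hd : (0 : ℝ) < (p (s + 1) : ℝ) - p s := by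
      have : (p s : ℝ) < p (s + 1) := by exact_mod_cast hl
      linarith
    rw [div_le_iff₀ hd, ← hρpow s]
    have h4 : 0 < ρ ^ s := by positivity
    have h5 : (ρ ^ s / 5) ^ 2 ≤ (∑ k ∈ Ico (p s) (p (s + 1)), a k) ^ 2 := by
      rw [← h2]; gcongr
    nlinarith
  refine ⟨fun s => if s = 0 then 0 else p (s0 + s), by simp, ?_, ?_, ?_⟩
  · refine strictMono_nat_of_lt_succ fun n => ?_
    rcases Nat.eq_zero_or_pos n with h | h
    · subst h
      have := hlt s0 le_rfl
      simp only [if_true, zero_add, one_ne_zero, if_false]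
      omega
    · have := hlt (s0 + n) (by omega)
      simp only [h.ne', if_false, Nat.add_eq_zero_iff, one_ne_zero, and_false]
      exact this
  · rw [← summable_nat_add_iff 1]
    have hb : Summable fun s => ∑ k ∈ Ico (p (s0 + (s + 1))) (p (s0 + (s + 1) + 1)), a k ^ 2 := by
      refine summable_of_sum_range_le (c := ∑' k, a k ^ 2)
        (fun s => sum_nonneg fun k _ => sq_nonneg _) fun n => ?_
      have : ∀ n, p (s0 + 1) ≤ p (s0 + (n + 1)) ∧
          ∑ s ∈ range n, ∑ k ∈ Ico (p (s0 + (s + 1))) (p (s0 + (s + 1) + 1)), a k ^ 2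
          = ∑ k ∈ Ico (p (s0 + 1)) (p (s0 + (n + 1))), a k ^ 2 := by
        intro n
        induction n with
        | zero => simp
        | succ n ih =>
          have hl := (hlt (s0 + (n + 1)) (by omega)).le
          refine ⟨ih.1.trans hl, ?_⟩
          rw [sum_range_succ, ih.2]
          exact sum_Ico_consecutive _ ih.1 hl
      rw [(this n).2]
      exact hsum.sum_le_tsum _ fun k _ => sq_nonneg _
    refine Summable.of_nonneg_of_le (fun s => ?_) (fun s => ?_) (hb.mul_left 50)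
    · have hl := hlt (s0 + (s + 1)) (by omega)
      simp only [Nat.add_eq_zero_iff, one_ne_zero, and_false, if_false]
      have : (p (s0 + (s + 1)) : ℝ) < p (s0 + (s + 1 + 1)) := by exact_mod_cast hl
      exact div_nonneg (by positivity) (by linarith)
    · have hl := hlt (s0 + (s + 1)) (by omega)
      have h1 := hblock (s0 + (s + 1)) (by omega)
      simp only [Nat.add_eq_zero_iff, one_ne_zero, and_false, if_false]
      have hd : (0 : ℝ) < (p (s0 + (s + 1) + 1) : ℝ) - p (s0 + (s + 1)) := by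
        have : (p (s0 + (s + 1)) : ℝ) < p (s0 + (s + 1) + 1) := by exact_mod_cast hl
        linarith
      have h2 : (2 : ℝ) ^ (s + 1 + 1) ≤ 2 * 2 ^ (s0 + (s + 1)) := by
        have h3 : (2 : ℝ) ^ (s + 1) ≤ 2 ^ (s0 + (s + 1)) :=
          pow_le_pow_right₀ (by norm_num) (by omega)
        rw [pow_succ]
        linarith
      calc (2 : ℝ) ^ (s + 1 + 1) / ((p (s0 + (s + 1 + 1)) : ℝ) - p (s0 + (s + 1)))
          ≤ 2 * 2 ^ (s0 + (s + 1)) / ((p (s0 + (s + 1) + 1) : ℝ) - p (s0 + (s + 1))) :=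
            div_le_div_of_nonneg_right h2 hd.le
        _ = 2 * (2 ^ (s0 + (s + 1)) / ((p (s0 + (s + 1) + 1) : ℝ) - p (s0 + (s + 1)))) := by ring
        _ ≤ _ := by linarith
  · refine summable_of_sum_range_le (c := 2 ^ s0 / γ ^ 2 * (2 * ∑' k, a k ^ 2))
      (fun s => mul_nonneg (by positivity) (sum_nonneg fun k _ => sq_nonneg _)) fun n => ?_
    simp only [Nat.add_eq_zero_iff, one_ne_zero, and_false, if_false]
    obtain ⟨K, hK⟩ : ∃ K, ∀ s ∈ range n, p (s0 + (s + 1)) ≤ K :=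
      ⟨∑ s ∈ range n, p (s0 + (s + 1)), fun s hs =>
        single_le_sum (f := fun s => p (s0 + (s + 1))) (fun _ _ => Nat.zero_le _) hs⟩
    have hterm : ∀ s ∈ range n, ((2 : ℝ) ^ (s + 1))⁻¹ * ∑ k ∈ Icc 1 (p (s0 + (s + 1))), t k ^ 2
        ≤ 2 ^ s0 / γ ^ 2 * ∑ k ∈ range K, a k ^ 2 *
          (if S k ^ 2 ≤ (2 : ℝ) ^ (s0 + (s + 1)) then S k ^ 2 / 2 ^ (s0 + (s + 1)) else 0) := by
      intro s hs
      have e1 : ∑ k ∈ Icc 1 (p (s0 + (s + 1))), t k ^ 2
          = ∑ k ∈ range (p (s0 + (s + 1))), t (k + 1) ^ 2 := by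
        rw [range_eq_Ico, sum_Ico_add' (fun k => t k ^ 2) 0 (p (s0 + (s + 1))) 1]
        rfl
      rw [e1, mul_sum, mul_sum]
      refine le_trans (sum_le_sum (g := fun k => 2 ^ s0 / γ ^ 2 * (a k ^ 2 *
          (if S k ^ 2 ≤ (2 : ℝ) ^ (s0 + (s + 1)) then S k ^ 2 / 2 ^ (s0 + (s + 1)) else 0)))
          fun k hk => ?_) ?_
      · have hk' := hp2 _ _ (mem_range.mp hk)
        have h1 : S k ^ 2 ≤ (2 : ℝ) ^ (s0 + (s + 1)) := by
          rw [← hρpow]; gcongr; exact hS0 k
        simp only [h1, if_true]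
        have h2 : (γ * t (k + 1)) ^ 2 ≤ (a k * S k) ^ 2 := by
          have := hle k
          have h0 : 0 ≤ γ * t (k + 1) := mul_nonneg hγ.le (ht _ (by omega))
          gcongr
        have h3 : t (k + 1) ^ 2 ≤ a k ^ 2 * S k ^ 2 / γ ^ 2 := by
          rw [le_div_iff₀ (by positivity)]; nlinarith
        calc ((2 : ℝ) ^ (s + 1))⁻¹ * t (k + 1) ^ 2
            ≤ ((2 : ℝ) ^ (s + 1))⁻¹ * (a k ^ 2 * S k ^ 2 / γ ^ 2) := by gcongr
          _ = _ := by rw [pow_add 2 s0]; field_simp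
      · refine sum_le_sum_of_subset_of_nonneg (range_subset_range.mpr (hK s hs)) fun k _ _ => ?_
        refine mul_nonneg (by positivity) (mul_nonneg (sq_nonneg _) ?_)
        split_ifs <;> positivity
    refine (sum_le_sum hterm).trans ?_
    rw [← mul_sum, sum_comm]
    refine mul_le_mul_of_nonneg_left ?_ (by positivity)
    calc ∑ k ∈ range K, ∑ s ∈ range n, a k ^ 2 *
          (if S k ^ 2 ≤ (2 : ℝ) ^ (s0 + (s + 1)) then S k ^ 2 / 2 ^ (s0 + (s + 1)) else 0)
        ≤ ∑ k ∈ range K, a k ^ 2 * 2 := by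
          refine sum_le_sum fun k _ => ?_
          rw [← mul_sum]
          refine mul_le_mul_of_nonneg_left ?_ (sq_nonneg _)
          refine le_trans ?_ (sum_ite_le_two (S k ^ 2) (sq_nonneg _) (s0 + 1 + n))
          rw [sum_range_add]
          have h0 : 0 ≤ ∑ s ∈ range (s0 + 1),
              (if S k ^ 2 ≤ (2 : ℝ) ^ s then S k ^ 2 / 2 ^ s else 0) :=
            sum_nonneg fun s _ => by split_ifs <;> positivity
          have e : ∀ s, s0 + 1 + s = s0 + (s + 1) := fun s => by omega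
          simp only [e]
          linarith
      _ = 2 * ∑ k ∈ range K, a k ^ 2 := by rw [← sum_mul, mul_comm]
      _ ≤ 2 * ∑' k, a k ^ 2 := by
          have := hsum.sum_le_tsum (range K) fun k _ => sq_nonneg (a k)
          linarith

/-- Main criterion: a square summable sequence `a` with `γ t_{n+1} ≤ a_n (B + ∑_{j<n} a_j)`
forces `t ∈ 𝒱`. -/
lemma inV_of_seq (t a : ℕ → ℝ) (B γ : ℝ) (hγ : 0 < γ) (hB : 0 ≤ B)
    (ht : ∀ k, 1 ≤ k → 0 ≤ t k) (ha : ∀ k, 0 ≤ a k)
    (hsum : Summable fun k => a k ^ 2)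
    (hle : ∀ n, γ * t (n + 1) ≤ a n * (B + ∑ j ∈ range n, a j)) : InV t := by
  have hpos : ∀ k : ℕ, (0 : ℝ) ≤ 1 / ((k : ℝ) + 1) := fun k => by positivity
  refine inV_of_unbounded t (fun k => a k + 1 / ((k : ℝ) + 1)) B γ hγ hB ht
    (fun k => add_nonneg (ha k) (hpos k)) ?_ ?_ ?_
  · have h1 : Summable fun k : ℕ => (1 / ((k : ℝ) + 1)) ^ 2 := by
      have := (summable_nat_add_iff 1).mpr (Real.summable_one_div_nat_pow.mpr (show 1 < 2 by norm_num))
      refine this.congr fun k => ?_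
      push_cast
      rw [div_pow, one_pow]
    refine Summable.of_nonneg_of_le (fun k => sq_nonneg _) (fun k => ?_)
      ((hsum.mul_left 2).add (h1.mul_left 2))
    nlinarith [sq_nonneg (a k - 1 / ((k : ℝ) + 1))]
  · refine tendsto_atTop_mono (fun n => ?_) Real.tendsto_sum_range_one_div_nat_succ_atTop
    exact sum_le_sum fun k _ => by linarith [ha k]
  · intro n
    refine (hle n).trans ?_
    have h1 : ∑ j ∈ range n, a j ≤ ∑ j ∈ range n, (a j + 1 / ((j : ℝ) + 1)) :=
      sum_le_sum fun k _ => by linarith [hpos k]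
    have h2 : 0 ≤ ∑ j ∈ range n, a j := sum_nonneg fun j _ => ha j
    exact mul_le_mul (by linarith [hpos n]) (by linarith) (by linarith) (add_nonneg (ha n) (hpos n))

end Pool.Agent.Lib.MP_8ec86e_an
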