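import Pool.Agent.Lib.MP_8ec86e_an.Defs

/-!
The tensor product map on square integrable functions, density of the bilinear dictionary and an
orthonormal sequence on the unit interval.
-/

open MeasureTheory Filter Topology Set

namespace Pool.Agent.Lib.MP_8ec86e_an

lemma memLp_tensor (u v : L2I) :
    MemLp (fun p : unitInterval × unitInterval => u p.1 * v p.2) 2 volume := by
  have hm : AEStronglyMeasurable (fun p : unitInterval × unitInterval => u p.1 * v p.2) volume :=
    (Lp.aestronglyMeasurable u).comp_fst.mul (Lp.aestronglyMeasurable v).comp_snd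
  rw [memLp_two_iff_integrable_sq hm]
  have := Integrable.mul_prod (Lp.memLp u).integrable_sq (Lp.memLp v).integrable_sq
  refine this.congr (Eventually.of_forall fun p => ?_)
  simp only [mul_pow]

/-- The function `u(x) v(y)` as an element of the space on the square. -/
noncomputable def tens (u v : L2I) : L2Sq := (memLp_tensor u v).toLp _

lemma tens_ae (u v : L2I) :
    ∀ᵐ p : unitInterval × unitInterval, tens u v p = u p.1 * v p.2 :=
  MemLp.coeFn_toLp _

lemma ae_fst {P : unitInterval → Prop} (h : ∀ᵐ x, P x) :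
    ∀ᵐ p : unitInterval × unitInterval, P p.1 :=
  (Measure.quasiMeasurePreserving_fst (μ := volume) (ν := volume)).ae h

lemma ae_snd {P : unitInterval → Prop} (h : ∀ᵐ x, P x) :
    ∀ᵐ p : unitInterval × unitInterval, P p.2 :=
  (Measure.quasiMeasurePreserving_snd (μ := volume) (ν := volume)).ae h

/-- The tensor map as a bilinear map. -/
noncomputable def tensL : L2I →ₗ[ℝ] L2I →ₗ[ℝ] L2Sq :=
  LinearMap.mk₂ ℝ tens
    (fun u u' v => by
      apply Lp.ext
      filter_upwards [tens_ae (u + u') v, tens_ae u v, tens_ae u' v,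
        Lp.coeFn_add (tens u v) (tens u' v), ae_fst (Lp.coeFn_add u u')] with p h1 h2 h3 h4 h5
      rw [h1, h4, Pi.add_apply, h2, h3, h5, Pi.add_apply, add_mul])
    (fun c u v => by
      apply Lp.ext
      filter_upwards [tens_ae (c • u) v, tens_ae u v,
        Lp.coeFn_smul c (tens u v), ae_fst (Lp.coeFn_smul c u)] with p h1 h2 h4 h5
      rw [h1, h4, Pi.smul_apply, h2, h5, Pi.smul_apply, smul_eq_mul, smul_eq_mul, mul_assoc])
    (fun u v v' => by
      apply Lp.ext
      filter_upwards [tens_ae u (v + v'), tens_ae u v, tens_ae u v',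
        Lp.coeFn_add (tens u v) (tens u v'), ae_snd (Lp.coeFn_add v v')] with p h1 h2 h3 h4 h5
      rw [h1, h4, Pi.add_apply, h2, h3, h5, Pi.add_apply, mul_add])
    (fun c u v => by
      apply Lp.ext
      filter_upwards [tens_ae u (c • v), tens_ae u v,
        Lp.coeFn_smul c (tens u v), ae_snd (Lp.coeFn_smul c v)] with p h1 h2 h4 h5
      rw [h1, h4, Pi.smul_apply, h2, h5, Pi.smul_apply, smul_eq_mul, smul_eq_mul]
      ring)

lemma tensL_apply (u v : L2I) : tensL u v = tens u v := rfl

lemma inner_tens (u v u' v' : L2I) :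
    inner ℝ (tensL u v) (tensL u' v') = inner ℝ u u' * inner ℝ v v' := by
  rw [tensL_apply, tensL_apply, L2.inner_def, L2.inner_def, L2.inner_def,
    ← integral_prod_mul]
  refine integral_congr_ae ?_
  filter_upwards [tens_ae u v, tens_ae u' v'] with p h1 h2
  rw [h1, h2]
  simp only [RCLike.inner_apply, conj_trivial]
  ring

lemma mem_Pi2 (g : L2Sq) : g ∈ Pi2 ↔ ∃ x y : L2I, ‖x‖ = 1 ∧ ‖y‖ = 1 ∧ g = tensL x y := by
  constructor
  · rintro ⟨u, v, hu, hv, h⟩
    refine ⟨u, v, hu, hv, Lp.ext ?_⟩
    filter_upwards [h, tens_ae u v] with p h1 h2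
    rw [h1, tensL_apply, h2]
  · rintro ⟨u, v, hu, hv, rfl⟩
    exact ⟨u, v, hu, hv, tens_ae u v⟩

lemma norm_of_mem_Pi2 (g : L2Sq) (hg : g ∈ Pi2) : ‖g‖ = 1 := by
  obtain ⟨x, y, hx, hy, rfl⟩ := (mem_Pi2 g).mp hg
  have h := inner_tens x y x y
  rw [real_inner_self_eq_norm_sq, real_inner_self_eq_norm_sq, real_inner_self_eq_norm_sq,
    hx, hy] at h
  have h0 := norm_nonneg (tensL x y)
  nlinarith

lemma tens_mem_span (u v : L2I) : tensL u v ∈ Submodule.span ℝ Pi2 := by
  by_cases hu : u = 0
  · simp [hu]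
  by_cases hv : v = 0
  · simp [hv]
  have hu' : ‖u‖ ≠ 0 := norm_ne_zero_iff.mpr hu
  have hv' : ‖v‖ ≠ 0 := norm_ne_zero_iff.mpr hv
  have e : tensL u v = (‖u‖ * ‖v‖) • tensL (‖u‖⁻¹ • u) (‖v‖⁻¹ • v) := by
    simp only [map_smul, LinearMap.smul_apply, smul_smul]
    have : ‖u‖ * ‖v‖ * (‖v‖⁻¹ * ‖u‖⁻¹) = 1 := by field_simp
    rw [this, one_smul]
  rw [e]
  refine Submodule.smul_mem _ _ (Submodule.subset_span ((mem_Pi2 _).mpr ⟨_, _, ?_, ?_, rfl⟩))
  · rw [norm_smul, norm_inv, norm_norm, inv_mul_cancel₀ hu']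
  · rw [norm_smul, norm_inv, norm_norm, inv_mul_cancel₀ hv']

lemma dense_span_Pi2 : Dense (Submodule.span ℝ Pi2 : Set L2Sq) := by
  rw [Submodule.dense_iff_topologicalClosure_eq_top, Submodule.topologicalClosure_eq_top_iff,
    Submodule.eq_bot_iff]
  intro h hh
  have hint : Integrable h volume := (Lp.memLp h).integrable (by norm_num)
  have hrect : ∀ A B : Set unitInterval, MeasurableSet A → MeasurableSet B →
      ∫ p in A ×ˢ B, h p = 0 := by
    intro A B hA hB
    have h1 := (Submodule.mem_orthogonal _ _).mp hh _ (tens_mem_span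
      (indicatorConstLp 2 hA (measure_ne_top _ _) (1 : ℝ))
      (indicatorConstLp 2 hB (measure_ne_top _ _) (1 : ℝ)))
    rw [← h1, L2.inner_def, ← integral_indicator (hA.prod hB)]
    refine integral_congr_ae ?_
    filter_upwards [tens_ae (indicatorConstLp 2 hA (measure_ne_top _ _) (1 : ℝ))
      (indicatorConstLp 2 hB (measure_ne_top _ _) (1 : ℝ)),
      ae_fst (indicatorConstLp_coeFn (p := 2) (hs := hA) (hμs := measure_ne_top _ _) (c := (1 : ℝ))),
      ae_snd (indicatorConstLp_coeFn (p := 2) (hs := hB) (hμs := measure_ne_top _ _) (c := (1 : ℝ)))]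
      with p h2 h3 h4
    rw [tensL_apply, h2, h3, h4]
    by_cases ha : p.1 ∈ A <;> by_cases hb : p.2 ∈ B <;> simp [indicator, ha, hb]
  have hall : ∀ s, MeasurableSet s → ∫ p in s, h p = 0 := by
    intro s hs
    induction s, hs using MeasurableSpace.induction_on_inter generateFrom_prod.symm
      isPiSystem_prod with
    | empty => simp
    | basic t ht =>
      obtain ⟨A, hA, B, hB, rfl⟩ := ht
      exact hrect A B hA hB
    | compl t htm ih =>
      rw [setIntegral_compl htm hint, ih, sub_zero]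
      have := hrect univ univ MeasurableSet.univ MeasurableSet.univ
      rwa [univ_prod_univ, setIntegral_univ] at this
    | iUnion f hd hm ih =>
      rw [integral_iUnion hm hd hint.integrableOn]
      simp [ih]
  have := hint.ae_eq_zero_of_forall_setIntegral_eq_zero fun s hs _ => hall s hs
  exact Lp.eq_zero_iff_ae_eq_zero.mpr this

/-- The points `2^{-n}` of the unit interval. -/
noncomputable def pt (n : ℕ) : unitInterval :=
  ⟨(1 / 2) ^ n, by positivity, pow_le_one₀ (by norm_num) (by norm_num)⟩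

lemma pt_anti : StrictAnti pt := by
  refine strictAnti_nat_of_succ_lt fun n => ?_
  change ((1 / 2 : ℝ)) ^ (n + 1) < (1 / 2) ^ n
  exact pow_lt_pow_right_of_lt_one₀ (by norm_num) (by norm_num) (Nat.lt_succ_self n)

lemma exists_orthonormal : ∃ e : ℕ → L2I, Orthonormal ℝ e := by
  have hvol : ∀ n, (volume : Measure unitInterval).real (Ioc (pt (n + 1)) (pt n))
      = (1 / 2) ^ (n + 1) := by
    intro n
    rw [Measure.real, unitInterval.volume_Ioc, ENNReal.toReal_ofReal]
    · simp only [pt]; ring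
    · have : (pt (n + 1) : ℝ) < pt n := pt_anti (Nat.lt_succ_self n)
      linarith
  refine ⟨fun n => indicatorConstLp 2 (measurableSet_Ioc (a := pt (n + 1)) (b := pt n))
    (measure_ne_top _ _) (Real.sqrt (2 ^ (n + 1))), ?_⟩
  rw [orthonormal_iff_ite]
  intro i j
  rw [L2.inner_indicatorConstLp_indicatorConstLp]
  split_ifs with hij
  · subst hij
    rw [inter_self, hvol]
    simp only [RCLike.inner_apply, conj_trivial, smul_eq_mul]
    rw [Real.mul_self_sqrt (by positivity), ← mul_pow]
    norm_num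
  · have : Ioc (pt (i + 1)) (pt i) ∩ Ioc (pt (j + 1)) (pt j) = ∅ := by
      rw [eq_empty_iff_forall_notMem]
      rintro x ⟨⟨h1, h2⟩, h3, h4⟩
      rcases lt_or_gt_of_ne hij with h | h
      · exact absurd (h1.trans_le (h4.trans (pt_anti.antitone (by omega)))) (lt_irrefl _)
      · exact absurd (h3.trans_le (h2.trans (pt_anti.antitone (by omega)))) (lt_irrefl _)
    rw [this]
    simp

end Pool.Agent.Lib.MP_8ec86e_an
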